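import Pool.Agent.W_c2305b_h73.Defs

/-!
# MP_c2305b_co: definitions used in the statements
-/

open MeasureTheory Set

namespace C2305b

/-- A convex domain: a compact convex set with interior points. -/
def ConvexDomain (K : Set Pl) : Prop := Convex ℝ K ∧ IsCompact K ∧ (interior K).Nonempty

/-- Some invertible affine map takes `K` to a set between the closed unit disc and the closed disc
of radius `1 + ε`. -/
def NearEllipse (ε : ℝ) (K : Set Pl) : Prop :=
  ∃ (A : Pl ≃L[ℝ] Pl) (v : Pl), Metric.closedBall 0 1 ⊆ (fun x => A x + v) '' K ∧
    (fun x => A x + v) '' K ⊆ Metric.closedBall 0 (1 + ε)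

end C2305b
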