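import Pool.Agent.W_c2305b_h73.Vol
import Pool.Agent.W82_c2305b.Main

/-!
# MP_c2305b_co: from the core statement to an absolute threshold for noncrossing coverings
-/

open MeasureTheory Set Module
open scoped Pointwise

namespace C2305b

theorem rot_rot (c s c' s' : ℝ) (p : Pl) :
    rot c s (rot c' s' p) = rot (c * c' - s * s') (s * c' + c * s') p := by
  apply ext2 <;> simp <;> ring

theorem rfx_rot {σ : ℝ} (hσ : σ = 1 ∨ σ = -1) (c s : ℝ) (p : Pl) :
    rfx σ (rot c s p) = rot c (σ * s) (rfx σ p) := by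
  rcases hσ with rfl | rfl <;> apply ext2 <;> simp <;> ring

theorem rfx_dil_rfx (σ τ l : ℝ) (p : Pl) : rfx σ (dil l (rfx τ p)) = dil l (rfx (σ * τ) p) := by
  apply ext2 <;> simp; ring

theorem rot_smul (c s μ : ℝ) (p : Pl) : rot c s (μ • p) = μ • rot c s p := by
  apply ext2 <;> simp <;> ring

theorem rfx_smul (σ μ : ℝ) (p : Pl) : rfx σ (μ • p) = μ • rfx σ p := by
  apply ext2 <;> simp; ring

theorem rot_add (c s : ℝ) (p q : Pl) : rot c s (p + q) = rot c s p + rot c s q := by
  apply ext2 <;> simp <;> ring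

theorem rfx_add (σ : ℝ) (p q : Pl) : rfx σ (p + q) = rfx σ p + rfx σ q := by
  apply ext2 <;> simp; ring

theorem body_eq (o : Pl) (c s l σ a b : ℝ) (K : Set Pl) :
    body o c s l σ a b K = (fun p => o + mat (frM c s l σ a b) p) '' K := by
  unfold body
  congr 1
  funext p
  rw [frame_eq]

theorem volume_body {c s l σ a b : ℝ} (h1 : c ^ 2 + s ^ 2 = 1) (h2 : a ^ 2 + b ^ 2 = 1)
    (hl : l ≠ 0) (hσ : σ = 1 ∨ σ = -1) (o : Pl) (K : Set Pl) :
    volume (body o c s l σ a b K) = volume K := by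
  rw [body_eq, volume_affine, det_frM h1 h2 hl]
  rcases hσ with rfl | rfl <;> simp

theorem t6_body {c s l σ a b : ℝ} (h1 : c ^ 2 + s ^ 2 = 1) (h2 : a ^ 2 + b ^ 2 = 1)
    (hl : l ≠ 0) (hσ : σ = 1 ∨ σ = -1) (o : Pl) (K : Set Pl) :
    t6 (body o c s l σ a b K) = t6 K := by
  rw [body_eq, t6_affine, det_frM h1 h2 hl]
  rcases hσ with rfl | rfl <;> simp

/-- Scaling as an affine map. -/
theorem smul_set_eq (μ : ℝ) (S : Set Pl) :
    μ • S = (fun p => (0 : Pl) + (μ • (LinearMap.id : Pl →ₗ[ℝ] Pl)) p) '' S := by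
  rw [← image_smul]
  congr 1
  funext p
  simp

theorem det_smul_id (μ : ℝ) : LinearMap.det (μ • (LinearMap.id : Pl →ₗ[ℝ] Pl)) = μ ^ 2 := by
  rw [LinearMap.det_smul, LinearMap.det_id, mul_one]
  congr 1
  simp [Module.finrank_fin_fun]

theorem volume_smul_set (μ : ℝ) (S : Set Pl) :
    volume (μ • S) = ENNReal.ofReal (μ ^ 2) * volume S := by
  rw [smul_set_eq, volume_affine, det_smul_id, abs_of_nonneg (sq_nonneg μ)]

theorem t6_smul_set (μ : ℝ) (S : Set Pl) :
    t6 (μ • S) = ENNReal.ofReal (μ ^ 2) * t6 S := by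
  rw [smul_set_eq, t6_affine, det_smul_id, abs_of_nonneg (sq_nonneg μ)]

/-- Copies of `K` in normal form: all congruent copies of `K` are translates of
`μ R(c_i,s_i) D_l S_i V K1`, with `K1` the linear image of `K`. -/
theorem copies_form (A : Pl ≃L[ℝ] Pl) (v : Pl) (K : Set Pl) : ∃ (μ l a b : ℝ), 0 < μ ∧ 1 ≤ l ∧
    a ^ 2 + b ^ 2 = 1 ∧ ∀ φ : Pl ≃ᵢ Pl, ∃ (o : Pl) (c s σ : ℝ), c ^ 2 + s ^ 2 = 1 ∧
      (σ = 1 ∨ σ = -1) ∧ φ '' K = μ • body o c s l σ a b ((fun x => A x + v) '' K) := by
  obtain ⟨cU, sU, τ, μ, l, a, b, hU, hτ, hμ, hl, hab, hM⟩ := svd A.symm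
  refine ⟨μ, l, a, b, hμ, hl, hab, fun φ => ?_⟩
  obtain ⟨o, c, s, σ, hcs, hσ, hφ⟩ := isometry_form φ
  -- φ x = o + rot c s (rfx σ x), x = A.symm (y - v)
  set q : Pl := rot c s (rfx σ (A.symm v)) with hq
  refine ⟨μ⁻¹ • (o - q), c * cU - s * (σ * sU), s * cU + c * (σ * sU), σ * τ, ?_, ?_, ?_⟩
  · have hσ2 : σ ^ 2 = 1 := by rcases hσ with rfl | rfl <;> norm_num
    calc (c * cU - s * (σ * sU)) ^ 2 + (s * cU + c * (σ * sU)) ^ 2
        = (c ^ 2 + s ^ 2) * (cU ^ 2 + σ ^ 2 * sU ^ 2) := by ring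
      _ = 1 := by rw [hσ2, one_mul, hcs, hU, one_mul]
  · rcases hσ with rfl | rfl <;> rcases hτ with rfl | rfl <;> norm_num
  · unfold body
    rw [image_image, ← image_smul, image_image]
    apply image_congr
    intro x _
    have h1 : A.symm (A x + v) = x + A.symm v := by
      rw [map_add, ContinuousLinearEquiv.symm_apply_apply]
    have h2 : φ x = o + rot c s (rfx σ (A.symm (A x + v))) - q := by
      rw [h1, rfx_add, rot_add, ← hq, hφ]; abel
    rw [h2, hM, rfx_smul, rot_smul, rfx_rot hσ, rot_rot, rfx_dil_rfx]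
    rw [smul_add, smul_smul, mul_inv_cancel₀ hμ.ne', one_smul]
    abel

theorem convex_body {c s l σ a b : ℝ} {o : Pl} {K : Set Pl} (h : Convex ℝ K) :
    Convex ℝ (body o c s l σ a b K) := by
  rw [body_eq]
  have : (fun p => o + mat (frM c s l σ a b) p) '' K =
      (fun x => o + x) '' (mat (frM c s l σ a b) '' K) := by rw [image_image]
  rw [this]
  have h2 := (h.linear_image (mat (frM c s l σ a b))).vadd o
  simpa [← image_vadd] using h2

/-- **From the core statement to the threshold.** -/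
theorem top {K0 : Set Pl} (hK0 : IsCompact K0) (hK0i : (interior K0).Nonempty)
    (h : Core K0) : Threshold K0 := by
  obtain ⟨ε, hε, N0, hcore⟩ := h
  have ht0 : 0 < t6 K0 := t6_pos hK0i
  -- volume of the largest admissible body
  have hbig : volume ((1 + ε) • K0) < ⊤ := by
    have : IsCompact ((1 + ε) • K0) := hK0.smul _
    exact this.measure_lt_top
  obtain ⟨N1, hN1⟩ : ∃ N1 : ℕ, N0 * volume ((1 + ε) • K0) ≤ N1 * t6 K0 := by
    have hfin : N0 * volume ((1 + ε) • K0) ≠ ⊤ :=
      ENNReal.mul_ne_top (ENNReal.natCast_ne_top _) hbig.ne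
    obtain ⟨N1, hN1⟩ := ENNReal.exists_nat_mul_gt ht0.ne' hfin
    exact ⟨N1, hN1.le⟩
  refine ⟨ε, hε, max N0 N1, ?_⟩
  rintro K hKc hKcomp ⟨A, v, hsub, hsup⟩
  set K1 : Set Pl := (fun x => A x + v) '' K with hK1
  have hK1c : Convex ℝ K1 := by
    have : K1 = (fun x => x + v) '' (A '' K) := by rw [hK1, image_image]
    rw [this]
    have h2 := (hKc.linear_image (A : Pl →ₗ[ℝ] Pl)).translate v
    simpa [add_comm] using h2
  have hK1comp : IsCompact K1 := hKcomp.image (by fun_prop)
  obtain ⟨μ, l, a, b, hμ, hl, hab, hform⟩ := copies_form A v K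
  have hl0 : l ≠ 0 := by linarith
  intro D hDc hDcomp hDi n hn φ hnc hcov
  choose o c s σ hcs hσ hφ using fun i => hform (φ i)
  -- the copies
  have hvolK : ∀ i, volume (φ i '' K) = ENNReal.ofReal (μ ^ 2) * volume K1 := by
    intro i
    rw [hφ, volume_smul_set, volume_body (hcs i) hab hl0 (hσ i)]
  have ht6K : ENNReal.ofReal (μ ^ 2) * t6 K1 = t6 K := by
    obtain ⟨o', c', s', σ', hcs', hσ', hφ'⟩ := hform (IsometryEquiv.refl Pl)
    have : (IsometryEquiv.refl Pl : Pl ≃ᵢ Pl) '' K = K := by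
      have h : ∀ x : Pl, (IsometryEquiv.refl Pl : Pl ≃ᵢ Pl) x = x := fun _ => rfl
      rw [image_congr (fun x _ => h x), image_id']
    rw [this] at hφ'
    conv_rhs => rw [hφ']
    rw [t6_smul_set, t6_body hcs' hab hl0 hσ']
  have hKi_conv : ∀ i, Convex ℝ (φ i '' K) := by
    intro i; rw [hφ]; exact (convex_body hK1c).smul μ
  have hKi_comp : ∀ i, IsCompact (φ i '' K) := fun i => hKcomp.image (φ i).continuous
  have hKi_int : ∀ i, (interior (φ i '' K)).Nonempty := by
    intro i
    have hKint : (interior K).Nonempty := by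
      have h1 : (interior K1).Nonempty := hK0i.mono (interior_mono hsub)
      have h2 : K1 = (A.toHomeomorph.trans (Homeomorph.addRight v)) '' K := by
        rw [hK1]; rfl
      rw [h2, ← Homeomorph.image_interior] at h1
      exact h1.of_image
    have : interior (φ i '' K) = (φ i).toHomeomorph '' interior K := by
      rw [Homeomorph.image_interior]; rfl
    rw [this]
    exact hKint.image _
  obtain ⟨J, P, f, d, hfd, hP, hPK, hPi, hDU⟩ := W82.partition_noncrossing (K := fun i => φ i '' K)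
    hKi_conv hKi_comp hKi_int (fun i j hij => hnc i j hij) hDc hDcomp hDi hcov
  classical
  haveI : Fintype J := Fintype.ofFinite J
  have hJn : Fintype.card J ≤ n := by
    have := Fintype.card_subtype_le (fun i : Fin n => i ∈ J)
    simpa using (Fintype.card_le_of_injective (Subtype.val : J → Fin n) Subtype.val_injective)
  rcases le_or_gt N0 (Fintype.card J) with hJ | hJ
  · -- many cells
    have hμi : 0 < μ⁻¹ := inv_pos.mpr hμ
    have hD' : volume (μ⁻¹ • D) ≤ Fintype.card J * t6 K1 := by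
      refine hcore K1 hK1c hK1comp hsub hsup l a b hl hab (μ⁻¹ • D) (hDc.smul _) (hDcomp.smul _)
        ?_ J (fun i => μ⁻¹ • P i) (fun i j => f i j) (fun i j => μ⁻¹ * d i j)
        (fun i => o i) (fun i => c i) (fun i => s i) (fun i => σ i) ?_ ?_ ?_ ?_
        (fun i => hcs i) (fun i => hσ i) ?_ hJ
      · rw [interior_smul₀ hμi.ne']
        exact hDi.smul_set
      · intro i j hij
        obtain ⟨h1, h2, h3⟩ := hfd i i.2 j j.2 (fun h => hij (Subtype.ext h))
        exact ⟨h1, h2, by simp only [h3]; ring⟩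
      · intro i
        ext x
        rw [mem_smul_set_iff_inv_smul_mem₀ hμi.ne', inv_inv, hP i i.2]
        simp only [mem_setOf_eq]
        rw [mem_smul_set_iff_inv_smul_mem₀ hμi.ne', inv_inv]
        constructor
        · rintro ⟨h1, h2⟩
          refine ⟨h1, fun j hij => ?_⟩
          have := h2 j j.2 (fun h => hij (Subtype.ext h))
          rw [map_smul, smul_eq_mul] at this
          rw [← div_eq_inv_mul, le_div_iff₀ hμ]
          linarith
        · rintro ⟨h1, h2⟩
          refine ⟨h1, fun j hj hij => ?_⟩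
          have := h2 ⟨j, hj⟩ (fun h => hij (congrArg Subtype.val h))
          rw [← div_eq_inv_mul, le_div_iff₀ hμ] at this
          rw [map_smul, smul_eq_mul]
          linarith
      · intro i
        rw [interior_smul₀ hμi.ne']
        exact (hPi i i.2).smul_set
      · rw [hDU]
        ext x
        rw [mem_smul_set_iff_inv_smul_mem₀ hμi.ne', mem_iUnion₂, mem_iUnion]
        constructor
        · rintro ⟨i, hi, hx⟩
          exact ⟨⟨i, hi⟩, (mem_smul_set_iff_inv_smul_mem₀ hμi.ne' _ _).mpr hx⟩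
        · rintro ⟨i, hx⟩
          exact ⟨i, i.2, (mem_smul_set_iff_inv_smul_mem₀ hμi.ne' _ _).mp hx⟩
      · intro i
        have h1 : P i ⊆ μ • body (o i) (c i) (s i) l (σ i) a b K1 := by
          rw [← hφ]; exact hPK i i.2
        have h2 := smul_set_mono (a := μ⁻¹) h1
        rwa [smul_smul, inv_mul_cancel₀ hμ.ne', one_smul] at h2
    have hDvol : volume D = ENNReal.ofReal (μ ^ 2) * volume (μ⁻¹ • D) := by
      rw [← volume_smul_set, smul_smul, mul_inv_cancel₀ hμ.ne', one_smul]
    calc volume D = ENNReal.ofReal (μ ^ 2) * volume (μ⁻¹ • D) := hDvol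
      _ ≤ ENNReal.ofReal (μ ^ 2) * (Fintype.card J * t6 K1) := by gcongr
      _ = Fintype.card J * (ENNReal.ofReal (μ ^ 2) * t6 K1) := by ring
      _ = Fintype.card J * t6 K := by rw [ht6K]
      _ ≤ n * t6 K := by gcongr
  · -- few cells
    have h1 : volume D ≤ Fintype.card J * (ENNReal.ofReal (μ ^ 2) * volume K1) := by
      calc volume D ≤ volume (⋃ i : J, φ i '' K) := by
            apply measure_mono
            rw [hDU]
            intro x hx
            obtain ⟨i, hi, hx⟩ := mem_iUnion₂.mp hx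
            exact mem_iUnion.mpr ⟨⟨i, hi⟩, hPK i hi hx⟩
        _ ≤ ∑ i : J, volume (φ i '' K) := measure_iUnion_fintype_le _ _
        _ = ∑ _i : J, ENNReal.ofReal (μ ^ 2) * volume K1 := by
            apply Finset.sum_congr rfl
            intro i _; exact hvolK i
        _ = _ := by rw [Finset.sum_const, Finset.card_univ, nsmul_eq_mul]
    calc volume D ≤ Fintype.card J * (ENNReal.ofReal (μ ^ 2) * volume K1) := h1
      _ ≤ N0 * (ENNReal.ofReal (μ ^ 2) * volume ((1 + ε) • K0)) := by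
          gcongr
      _ = ENNReal.ofReal (μ ^ 2) * (N0 * volume ((1 + ε) • K0)) := by ring
      _ ≤ ENNReal.ofReal (μ ^ 2) * (N1 * t6 K0) := by gcongr
      _ ≤ ENNReal.ofReal (μ ^ 2) * (N1 * t6 K1) := by gcongr; exact t6_mono hsub
      _ = N1 * (ENNReal.ofReal (μ ^ 2) * t6 K1) := by ring
      _ = N1 * t6 K := by rw [ht6K]
      _ ≤ n * t6 K := by
          gcongr
          exact (le_max_right N0 N1).trans hn

end C2305b
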