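import Pool.Agent.W_c2305b_h73.Natural
import Pool.Agent.W82_c2305b.CoreB
import Pool.Agent.W_c2305b_h52.DiscGap
import Pool.Agent.W_c2305b_h74.Disc
import Pool.Agent.W_c2305b_h79.Compact
import Pool.Agent.W_c2305b_h68.Lab3

/-!
# MP_c2305b_co: assembly of the core statements from part B
-/

open MeasureTheory Set Module
open scoped Pointwise

namespace C2305b

open C2305b.Rig (Conv6 ar6 LeMax UniqHex StrictMax RigidLim Rigid3 cr)

/-- part B for all parameters -/
def PB : Prop := ∀ R τ G a : ℝ, 1 ≤ R → 0 < τ → 0 < G → 0 < a → W82.PartB R τ G a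

/-- the area of a sextuple in `K` is at most `t6 K` -/
theorem ofReal_ar6_le {K : Set Pl} {q : Fin 6 → Pl} (hq : Conv6 q) (hK : ∀ k, q k ∈ K) :
    ENNReal.ofReal (ar6 q) ≤ t6 K := by
  refine le_trans ?_ (le_t6 hK)
  exact ENNReal.ofReal_le_of_le_toReal (Nat73.ar6_le_volume hq)

/-- the regular hexagon -/
noncomputable def hexR : Fin 6 → Pl :=
  ![!₂[1, 0], !₂[1 / 2, √3 / 2], !₂[-(1 / 2), √3 / 2], !₂[-1, 0], !₂[-(1 / 2), -(√3 / 2)],
    !₂[1 / 2, -(√3 / 2)]]

theorem hexR_mem (k : Fin 6) : hexR k ∈ Metric.closedBall (0 : Pl) 1 := by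
  have hr : (√3 : ℝ) ^ 2 = 3 := Real.sq_sqrt (by norm_num)
  rw [mem_closedBall_zero_iff, EuclideanSpace.norm_eq, Real.sqrt_le_one, Fin.sum_univ_two]
  simp only [Real.norm_eq_abs, sq_abs]
  fin_cases k <;> simp [hexR] <;> nlinarith

theorem ar6_hexR : ar6 hexR = 3 * √3 / 2 := by
  unfold ar6 cr hexR
  rw [Fin.sum_univ_six]
  simp
  ring

theorem conv6_hexR : Conv6 hexR := by
  have h0 : (0 : ℝ) ≤ √3 := Real.sqrt_nonneg 3
  intro i j k hij hjk
  unfold cr hexR
  fin_cases i <;> fin_cases j <;> simp at hij <;> fin_cases k <;> simp at hjk <;>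
    simp <;> nlinarith

theorem t6_disc_ge : ENNReal.ofReal (3 * √3 / 2) ≤ t6 (Metric.closedBall (0 : Pl) 1) := by
  rw [← ar6_hexR]
  exact ofReal_ar6_le conv6_hexR hexR_mem

theorem rigid3_disc : Rigid3 (Metric.closedBall (0 : Pl) 1) (3 * √3 / 2) :=
  C2305b.Rig.rigid3_of_lim _ (isCompact_closedBall _ _)
    (fun v hv => by rw [mem_closedBall_zero_iff] at hv ⊢; rwa [norm_neg]) _
    C2305b.Rig.O74.strictMax_disc C2305b.Rig.O74.leMax_disc C2305b.Rig.O74.rigidLim_disc

/-- **The core statement for the disc.** -/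
theorem core_disc (hPB : PB) : Core (Metric.closedBall (0 : Pl) 1) :=
  W82.core_of_partB (R0 := 1) (convex_closedBall _ _) subset_rfl (by positivity) t6_disc_ge
    C2305bH52.DiscGap.gap_disc rigid3_disc hPB

/-- **The core statement for the generic class.** -/
theorem core_uniq (hPB : PB) {K0 : Set Pl} (hc : Convex ℝ K0) (hcomp : IsCompact K0)
    {H : Fin 6 → Pl} {t : ℝ} (U : UniqHex K0 H t) {τ g : ℝ} (hG : W82.Gap K0 t τ g) :
    Core K0 := by
  obtain ⟨R0, hR0⟩ := hcomp.isBounded.subset_closedBall 0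
  have ht : 0 < t := by
    have h1 := U.area
    rw [C2305b.Rig.O74.ar6_eq] at h1
    have h2 := U.conv 0 1 2 (by decide) (by decide)
    have h3 := U.conv 0 2 3 (by decide) (by decide)
    have h4 := U.conv 0 3 4 (by decide) (by decide)
    have h5 := U.conv 0 4 5 (by decide) (by decide)
    have h6 : 0 < cr (H 1 - H 0) (H 2 - H 1) := U.strict 0
    have h7 : cr (H 1 - H 0) (H 2 - H 1) = cr (H 1 - H 0) (H 2 - H 0) := by
      unfold cr; simp only [PiLp.sub_apply]; ring
    rw [h7] at h6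
    linarith
  refine W82.core_of_partB (R0 := R0) hc hR0 ht ?_ hG ?_ hPB
  · rw [← U.area]
    exact ofReal_ar6_le U.conv U.mem
  · exact C2305b.Rig.rigid3_of_lim _ hcomp U.sym _ (C2305bH68.Lab.strictMax_of_uniq U) U.le
      (C2305bH68.Lab.rigidLim_of_uniq U)

end C2305b
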