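import Pool.Agent.W_c2305b_h79.Compact

/-!
# [G3]: compactness for the hanging edges (MP_c2305b_co, class GAP + SYM)
-/

namespace C2305b.Rig.H73

open Filter Topology C2305b.Rig

/-- The exact statement at `ν = 0` for four cells: `A = 0`, `B = 1`, `C = 2`, `D = 3`. -/
def Exact4 (K0 : Set Pl) (t6 : ℝ) : Prop :=
  ∀ a b : ℝ, a ^ 2 + b ^ 2 = 1 →
  ∀ (t : Fin 4 → Bool) (e : Fin 4 → ℝ) (q : Fin 4 → Fin 6 → Pl),
    (∀ i, Conv6 (q i)) → (∀ i k, InBody K0 a b (t i) (q i k)) → (∀ i, ar6 (q i) = t6) →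
    Sh (e 0) (q 0 5 - q 0 0) = Sh (e 2) (q 2 1 - q 2 0) →
    Sh (e 2) (q 2 5 - q 2 0) = Sh (e 1) (q 1 1 - q 1 0) →
    Sh (e 1) (q 1 5 - q 1 0) = Sh (e 0) (q 0 1 - q 0 0) →
    Sh (e 1) (q 1 2 - q 1 1) = Sh (e 3) (q 3 5 - q 3 0) →
    Sh (e 2) (q 2 4 - q 2 5) = Sh (e 3) (q 3 1 - q 3 0) →
    (q 0 1 - q 0 0) 0 = 0 → (q 2 2 - q 2 1) 0 = 0 →
    cr (Sh (e 0) (q 0 0 - q 0 4)) (Sh (e 1) (q 1 2 - q 1 0)) = 0

/-- Regularity of the midlines across a nearly vertical edge. -/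
def RegAt (K0 : Set Pl) (T6 ν ε a b η om c1 κ : ℝ) : Prop :=
  ∀ (t : Fin 4 → Bool) (c s : Fin 4 → ℝ) (o : Fin 4 → Pl) (q : Fin 4 → Fin 6 → Pl),
    (∀ i, c i ^ 2 + ν * s i ^ 2 = 1) → (∀ i, Conv6 (q i)) →
    (∀ i k, InBody K0 a b (t i) ((1 + ε)⁻¹ • q i k)) → (∀ i, T6 - η ≤ ar6 (q i)) →
    Pos ν 1 0 (t 0) (c 0) (s 0) (o 0) (q 0 0) = Pos ν 1 0 (t 1) (c 1) (s 1) (o 1) (q 1 0) →
    Pos ν 1 0 (t 0) (c 0) (s 0) (o 0) (q 0 0) = Pos ν 1 0 (t 2) (c 2) (s 2) (o 2) (q 2 0) →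
    Pos ν 1 0 (t 0) (c 0) (s 0) (o 0) (q 0 1) = Pos ν 1 0 (t 1) (c 1) (s 1) (o 1) (q 1 5) →
    Pos ν 1 0 (t 0) (c 0) (s 0) (o 0) (q 0 5) = Pos ν 1 0 (t 2) (c 2) (s 2) (o 2) (q 2 1) →
    Pos ν 1 0 (t 1) (c 1) (s 1) (o 1) (q 1 1) = Pos ν 1 0 (t 2) (c 2) (s 2) (o 2) (q 2 5) →
    Pos ν 1 0 (t 1) (c 1) (s 1) (o 1) (q 1 1) = Pos ν 1 0 (t 3) (c 3) (s 3) (o 3) (q 3 0) →
    Pos ν 1 0 (t 1) (c 1) (s 1) (o 1) (q 1 2) = Pos ν 1 0 (t 3) (c 3) (s 3) (o 3) (q 3 5) →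
    Pos ν 1 0 (t 2) (c 2) (s 2) (o 2) (q 2 4) = Pos ν 1 0 (t 3) (c 3) (s 3) (o 3) (q 3 1) →
    |(q 0 1 - q 0 0) 0| ≤ om → |(q 2 2 - q 2 1) 0| ≤ 3 * c1 →
    |cr (Pos ν 1 0 (t 0) (c 0) (s 0) (o 0) (q 0 0) - Pos ν 1 0 (t 0) (c 0) (s 0) (o 0) (q 0 4))
      (Pos ν 1 0 (t 1) (c 1) (s 1) (o 1) (q 1 2) -
        Pos ν 1 0 (t 1) (c 1) (s 1) (o 1) (q 1 0))| ≤ κ

theorem pos_one_zero (ν : ℝ) (t : Bool) (c s : ℝ) (o v : Pl) :
    Pos ν 1 0 t c s o v = o + Am ν c s v := by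
  unfold Pos
  congr 2
  cases t
  · simp [Off]
  · apply pl_ext
    · simp [Off]
    · simp [Off]

theorem cr_Am' {ν c s : ℝ} (h : c ^ 2 + ν * s ^ 2 = 1) (u v : Pl) :
    cr (Am ν c s u) (Am ν c s v) = cr u v := by
  simp only [cr, Am_zero, Am_one]
  linear_combination (u 0 * v 1 - u 1 * v 0) * h

theorem am_inj {ν c s : ℝ} (h : c ^ 2 + ν * s ^ 2 = 1) {u v : Pl}
    (huv : Am ν c s u = Am ν c s v) : u = v := by
  have e0 : c * u 0 - ν * s * u 1 = c * v 0 - ν * s * v 1 := by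
    have := congrArg (fun v : Pl => v 0) huv; simpa using this
  have e1 : s * u 0 + c * u 1 = s * v 0 + c * v 1 := by
    have := congrArg (fun v : Pl => v 1) huv; simpa using this
  apply pl_ext
  · linear_combination c * e0 + ν * s * e1 + (v 0 - u 0) * h
  · linear_combination (-s) * e0 + c * e1 + (v 1 - u 1) * h

/-- composition of frames -/
theorem am_comp {ν c s c' s' : ℝ} (h : c ^ 2 + ν * s ^ 2 = 1) (v : Pl) :
    Am ν c' s' v = Am ν c s (Am ν (c * c' + ν * s * s') (c * s' - s * c') v) := by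
  apply pl_ext
  · simp only [Am_zero, Am_one]
    linear_combination (-(c' * v 0 - ν * s' * v 1)) * h
  · simp only [Am_zero, Am_one]
    linear_combination (-(s' * v 0 + c' * v 1)) * h

/-- Bounded relative frames around a 3-valent vertex. -/
theorem bdd3 (U : Ultrafilter ℕ) {ν : ℕ → ℝ} (hνpos : ∀ n, 0 < ν n) {c s : ℕ → Fin 3 → ℝ}
    (hcs : ∀ n i, c n i ^ 2 + ν n * s n i ^ 2 = 1) {W V : ℕ → Fin 3 → Pl}
    {WL VL : Fin 3 → Pl} (hW : ∀ i, Tendsto (fun n => W n i) (U : Filter ℕ) (𝓝 (WL i)))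
    (hV : ∀ i, Tendsto (fun n => V n i) (U : Filter ℕ) (𝓝 (VL i)))
    (hst' : ∀ i, 0 < cr (VL i) (WL i))
    (hrel : ∀ᶠ n in (U : Filter ℕ), ∀ i,
      Am (ν n) (c n i) (s n i) (W n i) = Am (ν n) (c n (i+1)) (s n (i+1)) (V n (i+1))) :
    ∀ i, ∃ C, ∀ᶠ n in (U : Filter ℕ), |s n i * c n (i+1) - c n i * s n (i+1)| ≤ C := by
  set g : ℕ → Fin 3 → ℝ := fun n i => c n i * c n (i+1) + ν n * s n i * s n (i+1) with hgd
  set d : ℕ → Fin 3 → ℝ := fun n i => s n i * c n (i+1) - c n i * s n (i+1) with hdd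
  have hgg : ∀ n i, g n i ^ 2 + ν n * d n i ^ 2 = 1 := by
    intro n i
    simp only [hgd, hdd]
    linear_combination (c n (i+1) ^ 2 + ν n * s n (i+1) ^ 2) * hcs n i + hcs n (i+1)
  have hg1 : ∀ n i, |g n i| ≤ 1 := by
    intro n i
    rw [← sq_le_one_iff_abs_le_one]
    have := mul_nonneg (hνpos n).le (sq_nonneg (d n i))
    linarith [hgg n i]
  have heq : ∀ᶠ n in (U : Filter ℕ), ∀ i,
      g n i * W n i 0 - ν n * d n i * W n i 1 = V n (i+1) 0 ∧
      d n i * W n i 0 + g n i * W n i 1 = V n (i+1) 1 ∧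
      -d n i * V n (i+1) 0 + g n i * V n (i+1) 1 = W n i 1 := by
    filter_upwards [hrel] with n h3 i
    exact rel_frame (hcs n (i+1)) (hcs n i) (h3 i)
  have i3 : ∀ i : Fin 3, i + 2 + 1 = i := by decide
  have i2 : ∀ i : Fin 3, i + 1 + 1 = i + 2 := by decide
  have hcomp : ∀ n i, d n i = -(d n (i+1) * g n (i+2) + g n (i+1) * d n (i+2)) := by
    intro n i
    simp only [hgd, hdd, i2, i3]
    linear_combination (s n (i+1) * c n i - c n (i+1) * s n i) * hcs n (i+2)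
  have case1 : ∀ i, WL i 0 ≠ 0 → ∃ C, ∀ᶠ n in (U : Filter ℕ), |d n i| ≤ C := by
    intro i hi
    exact bdd_of_mul hi (tendsto_coord (hW i) 0) (tendsto_coord (hW i) 1)
      (tendsto_coord (hV (i+1)) 1) (Eventually.of_forall fun n => hg1 n i)
      (heq.mono fun n h => (h i).2.1)
  have case2 : ∀ i, VL (i+1) 0 ≠ 0 → ∃ C, ∀ᶠ n in (U : Filter ℕ), |d n i| ≤ C := by
    intro i hi
    refine bdd_of_mul (neg_ne_zero.2 hi) (tendsto_coord (hV (i+1)) 0).neg
      (tendsto_coord (hV (i+1)) 1)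
      (tendsto_coord (hW i) 1) (Eventually.of_forall fun n => hg1 n i)
      (heq.mono fun n h => ?_)
    have := (h i).2.2
    linarith
  intro i
  by_cases hi : WL i 0 = 0
  · by_cases hj : VL (i+1) 0 = 0
    · have a1 : VL i 0 ≠ 0 := by
        intro h
        have := hst' i
        simp [cr, h, hi] at this
      have a2 : WL (i+1) 0 ≠ 0 := by
        intro h
        have := hst' (i+1)
        simp [cr, h, hj] at this
      obtain ⟨C1, hC1⟩ := case1 (i+1) a2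
      obtain ⟨C2, hC2⟩ := case2 (i+2) (by rw [i3]; exact a1)
      refine ⟨C1 + C2, ?_⟩
      filter_upwards [hC1, hC2] with n b1 b2
      show |d n i| ≤ _
      rw [hcomp n i, abs_neg]
      calc |d n (i+1) * g n (i+2) + g n (i+1) * d n (i+2)|
          ≤ |d n (i+1) * g n (i+2)| + |g n (i+1) * d n (i+2)| := abs_add_le _ _
        _ = |d n (i+1)| * |g n (i+2)| + |g n (i+1)| * |d n (i+2)| := by rw [abs_mul, abs_mul]
        _ ≤ |d n (i+1)| * 1 + 1 * |d n (i+2)| := by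
            gcongr
            · exact hg1 _ _
            · exact hg1 _ _
        _ ≤ C1 + C2 := by linarith
    · exact case2 i hj
  · exact case1 i hi

/-- strict corners in cyclic labels -/
theorem strict_shift {K0 : Set Pl} {t6 : ℝ} (h1 : StrictMax K0 t6) {a b : ℝ}
    (hab : a ^ 2 + b ^ 2 = 1) {t : Bool} {q : Fin 6 → Pl} (hc : Conv6 q)
    (hb : ∀ k, InBody K0 a b t (q k)) (ha : ar6 q = t6) (j : Fin 6) :
    0 < cr (q (j + 1) - q j) (q (j + 5) - q j) := by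
  have key : ∀ m i j k : Fin 6, i < j → j < k →
      (i + m < j + m ∧ j + m < k + m) ∨ (j + m < k + m ∧ k + m < i + m) ∨
        (k + m < i + m ∧ i + m < j + m) := by decide
  have hc' : Conv6 (fun k => q (k + j)) := by
    intro i k l hik hkl
    have e1 : ∀ u v w : Pl, cr (v - u) (w - u) = cr (w - v) (u - v) := by
      intro u v w; simp only [cr, PiLp.sub_apply]; ring
    rcases key j i k l hik hkl with ⟨h2, h3⟩ | ⟨h2, h3⟩ | ⟨h2, h3⟩
    · exact hc _ _ _ h2 h3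
    · have := hc _ _ _ h2 h3
      rw [e1]; exact this
    · have := hc _ _ _ h2 h3
      rw [e1, e1]; exact this
  have ha' : ar6 (fun k => q (k + j)) = t6 := by
    rw [← ha]
    unfold ar6
    congr 1
    rw [← Equiv.sum_comp (Equiv.addRight j) (fun k => cr (q k) (q (k + 1)))]
    refine Finset.sum_congr rfl fun k _ => ?_
    simp only [Equiv.coe_addRight]
    rw [add_right_comm]
  have := h1 a b t _ hab hc' (fun k => hb _) ha'
  rw [zero_add, add_comm 1 j, add_comm 5 j] at this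
  exact this

/-- **G3.** -/
theorem reg_at {K0 : Set Pl} (hK : IsCompact K0) (hsym : ∀ v ∈ K0, -v ∈ K0) {t6 : ℝ}
    (h1 : StrictMax K0 t6) (h2 : LeMax K0 t6) (hx : Exact4 K0 t6) {κ : ℝ} (hκ : 0 < κ) :
    ∃ c1 : ℝ, 0 < c1 ∧ c1 ≤ 1 ∧ ∃ om : ℝ, 0 < om ∧ ∃ η : ℝ, 0 < η ∧ ∃ ν0 : ℝ, 0 < ν0 ∧
      ∃ ε0 : ℝ, 0 < ε0 ∧ ∀ ν : ℝ, 0 < ν → ν ≤ ν0 → ∀ ε : ℝ, 0 ≤ ε → ε ≤ ε0 →
      ∀ a b : ℝ, a ^ 2 + b ^ 2 = 1 → RegAt K0 t6 ν ε a b η om c1 κ := by
  by_contra hcon
  push Not at hcon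
  have hpos : ∀ n : ℕ, (0 : ℝ) < 1 / ((n : ℝ) + 1) := fun n => by positivity
  have hle1 : ∀ n : ℕ, 1 / ((n : ℝ) + 1) ≤ 1 := fun n => by
    rw [div_le_one (by positivity)]
    have : (0 : ℝ) ≤ n := Nat.cast_nonneg n
    linarith
  have H := fun n : ℕ => hcon _ (hpos n) (hle1 n) _ (hpos n) _ (hpos n) _ (hpos n) _ (hpos n)
  choose ν hν1 hν2 ε hε1 hε2 an bn habn hall using H
  unfold RegAt at hall
  push Not at hall
  choose t c s o q hcs hconv hbody har p1 p2 p3 p4 p5 p6 p7 p8 hom hc1 hbad using hall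
  set U : Ultrafilter ℕ := Filter.hyperfilter ℕ with hU
  have hδ : Tendsto (fun n : ℕ => 1 / ((n : ℝ) + 1)) (U : Filter ℕ) (𝓝 0) :=
    (tendsto_one_div_add_atTop_nhds_zero_nat (𝕜 := ℝ)).mono_left Nat.hyperfilter_le_atTop
  have hν : Tendsto ν (U : Filter ℕ) (𝓝 0) :=
    squeeze_zero (fun n => (hν1 n).le) hν2 hδ
  have hε : Tendsto ε (U : Filter ℕ) (𝓝 0) := squeeze_zero hε1 hε2 hδ
  obtain ⟨a, ha⟩ := ulim_real U an 1 (Eventually.of_forall fun n => by
    rw [← sq_le_one_iff_abs_le_one]; nlinarith [habn n, sq_nonneg (bn n)])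
  obtain ⟨b, hb⟩ := ulim_real U bn 1 (Eventually.of_forall fun n => by
    rw [← sq_le_one_iff_abs_le_one]; nlinarith [habn n, sq_nonneg (an n)])
  have hab : a ^ 2 + b ^ 2 = 1 := by
    have e1 := (ha.pow 2).add (hb.pow 2)
    have e2 : Tendsto (fun n => an n ^ 2 + bn n ^ 2) (U : Filter ℕ) (𝓝 1) := by
      simp only [habn]; exact tendsto_const_nhds
    exact tendsto_nhds_unique e1 e2
  obtain ⟨t0, ht0⟩ := ultra_const U t
  -- bounded local points and their limits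
  obtain ⟨M, hM⟩ := hK.isBounded.exists_norm_le
  have hε1' : ∀ᶠ n in (U : Filter ℕ), ε n ≤ 1 :=
    (hε.eventually (gt_mem_nhds (show (0 : ℝ) < 1 by norm_num))).mono fun n h => h.le
  have hbd : ∀ i k, ∀ᶠ n in (U : Filter ℕ), |q n i k 0| ≤ 4 * M ∧ |q n i k 1| ≤ 4 * M := by
    intro i k
    filter_upwards [hε1'] with n h3
    exact coord_bound hM (habn n) (hε1 n) h3 (hbody n i k)
  have hl0 : ∀ i k, ∃ l, Tendsto (fun n => q n i k 0) (U : Filter ℕ) (𝓝 l) := fun i k =>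
    ulim_real U _ (4 * M) ((hbd i k).mono fun n h => h.1)
  have hl1 : ∀ i k, ∃ l, Tendsto (fun n => q n i k 1) (U : Filter ℕ) (𝓝 l) := fun i k =>
    ulim_real U _ (4 * M) ((hbd i k).mono fun n h => h.2)
  choose q0 hq0 using hl0
  choose q1 hq1 using hl1
  obtain ⟨Q, hQ⟩ : ∃ Q : Fin 4 → Fin 6 → Pl, ∀ i k,
      Tendsto (fun n => q n i k) (U : Filter ℕ) (𝓝 (Q i k)) := by
    refine ⟨fun i k => !₂[q0 i k, q1 i k], fun i k => tendsto_pl ?_ ?_⟩
    · simpa using hq0 i k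
    · simpa using hq1 i k
  have hQb : ∀ i k, InBody K0 a b (t0 i) (Q i k) := fun i k =>
    inBody_lim hK ha hb hε (hQ i k) (ht0.mono fun n h => by rw [← h]; exact hbody n i k)
  have hQc : ∀ i, Conv6 (Q i) := by
    intro i j k l hjk hkl
    refine ge_of_tendsto (tendsto_cr ((hQ i k).sub (hQ i j)) ((hQ i l).sub (hQ i j))) ?_
    exact Eventually.of_forall fun n => hconv n i j k l hjk hkl
  have hQa : ∀ i, ar6 (Q i) = t6 := by
    intro i
    refine le_antisymm (ar6_le_of_inBody h2 hab (t0 i) (hQc i) (hQb i)) ?_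
    have e1 : Tendsto (fun n : ℕ => t6 - 1 / ((n : ℝ) + 1)) (U : Filter ℕ) (𝓝 t6) := by
      simpa using tendsto_const_nhds.sub hδ
    exact le_of_tendsto_of_tendsto e1 (tendsto_ar6 (hQ i)) (Eventually.of_forall fun n => har n i)
  have hst : ∀ i j, 0 < cr (Q i (j + 1) - Q i j) (Q i (j + 5) - Q i j) := fun i j =>
    strict_shift h1 hab (hQc i) (hQb i) (hQa i) j
  -- the vector relations
  have vec : ∀ (n : ℕ) (i j : Fin 4) (k l k' l' : Fin 6),
      Pos (ν n) 1 0 (t n i) (c n i) (s n i) (o n i) (q n i k) =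
        Pos (ν n) 1 0 (t n j) (c n j) (s n j) (o n j) (q n j k') →
      Pos (ν n) 1 0 (t n i) (c n i) (s n i) (o n i) (q n i l) =
        Pos (ν n) 1 0 (t n j) (c n j) (s n j) (o n j) (q n j l') →
      Am (ν n) (c n i) (s n i) (q n i l - q n i k) =
        Am (ν n) (c n j) (s n j) (q n j l' - q n j k') := by
    intro n i j k l k' l' e1 e2
    rw [pos_one_zero, pos_one_zero] at e1 e2
    rw [Am_sub, Am_sub]
    have := congrArg₂ (fun x y : Pl => x - y) e2 e1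
    simpa only [add_sub_add_left_eq_sub] using this
  have r1 : ∀ n, Am (ν n) (c n 0) (s n 0) (q n 0 5 - q n 0 0) =
      Am (ν n) (c n 2) (s n 2) (q n 2 1 - q n 2 0) := fun n => vec n 0 2 0 5 0 1 (p2 n) (p4 n)
  have r3 : ∀ n, Am (ν n) (c n 1) (s n 1) (q n 1 5 - q n 1 0) =
      Am (ν n) (c n 0) (s n 0) (q n 0 1 - q n 0 0) := fun n =>
    vec n 1 0 0 5 0 1 (p1 n).symm (p3 n).symm
  have r2 : ∀ n, Am (ν n) (c n 2) (s n 2) (q n 2 5 - q n 2 0) =
      Am (ν n) (c n 1) (s n 1) (q n 1 1 - q n 1 0) := fun n =>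
    vec n 2 1 0 5 0 1 ((p2 n).symm.trans (p1 n)) (p5 n).symm
  have r4 : ∀ n, Am (ν n) (c n 1) (s n 1) (q n 1 2 - q n 1 1) =
      Am (ν n) (c n 3) (s n 3) (q n 3 5 - q n 3 0) := fun n => vec n 1 3 1 2 0 5 (p6 n) (p7 n)
  have r5 : ∀ n, Am (ν n) (c n 2) (s n 2) (q n 2 4 - q n 2 5) =
      Am (ν n) (c n 3) (s n 3) (q n 3 1 - q n 3 0) := fun n =>
    vec n 2 3 5 4 0 1 ((p5 n).symm.trans (p6 n)) (p8 n)
  -- relative frames
  set g : ℕ → Fin 4 → ℝ := fun n i => c n 0 * c n i + ν n * s n 0 * s n i with hgd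
  set d : ℕ → Fin 4 → ℝ := fun n i => c n 0 * s n i - s n 0 * c n i with hdd
  have hgg : ∀ n i, g n i ^ 2 + ν n * d n i ^ 2 = 1 := by
    intro n i
    simp only [hgd, hdd]
    linear_combination (c n i ^ 2 + ν n * s n i ^ 2) * hcs n 0 + hcs n i
  have hg1 : ∀ n i, |g n i| ≤ 1 := by
    intro n i
    rw [← sq_le_one_iff_abs_le_one]
    have := mul_nonneg (hν1 n).le (sq_nonneg (d n i))
    linarith [hgg n i]
  -- the vertex z : cells A, C, B
  have b1 := bdd3 U hν1 (c := fun n => ![c n 0, c n 2, c n 1]) (s := fun n => ![s n 0, s n 2, s n 1])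
    (by
      intro n i
      fin_cases i
      · exact hcs n 0
      · exact hcs n 2
      · exact hcs n 1)
    (W := fun n => ![q n 0 5 - q n 0 0, q n 2 5 - q n 2 0, q n 1 5 - q n 1 0])
    (V := fun n => ![q n 0 1 - q n 0 0, q n 2 1 - q n 2 0, q n 1 1 - q n 1 0])
    (WL := ![Q 0 5 - Q 0 0, Q 2 5 - Q 2 0, Q 1 5 - Q 1 0])
    (VL := ![Q 0 1 - Q 0 0, Q 2 1 - Q 2 0, Q 1 1 - Q 1 0])
    (by
      intro i
      fin_cases i
      · exact (hQ 0 5).sub (hQ 0 0)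
      · exact (hQ 2 5).sub (hQ 2 0)
      · exact (hQ 1 5).sub (hQ 1 0))
    (by
      intro i
      fin_cases i
      · exact (hQ 0 1).sub (hQ 0 0)
      · exact (hQ 2 1).sub (hQ 2 0)
      · exact (hQ 1 1).sub (hQ 1 0))
    (by
      intro i
      fin_cases i
      · exact hst 0 0
      · exact hst 2 0
      · exact hst 1 0)
    (Eventually.of_forall fun n i => by
      fin_cases i
      · exact r1 n
      · exact r2 n
      · exact r3 n)
  -- the vertex z1 : cells B, C, D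
  have b2 := bdd3 U hν1 (c := fun n => ![c n 1, c n 2, c n 3]) (s := fun n => ![s n 1, s n 2, s n 3])
    (by
      intro n i
      fin_cases i
      · exact hcs n 1
      · exact hcs n 2
      · exact hcs n 3)
    (W := fun n => ![q n 1 0 - q n 1 1, q n 2 4 - q n 2 5, q n 3 5 - q n 3 0])
    (V := fun n => ![q n 1 2 - q n 1 1, q n 2 0 - q n 2 5, q n 3 1 - q n 3 0])
    (WL := ![Q 1 0 - Q 1 1, Q 2 4 - Q 2 5, Q 3 5 - Q 3 0])
    (VL := ![Q 1 2 - Q 1 1, Q 2 0 - Q 2 5, Q 3 1 - Q 3 0])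
    (by
      intro i
      fin_cases i
      · exact (hQ 1 0).sub (hQ 1 1)
      · exact (hQ 2 4).sub (hQ 2 5)
      · exact (hQ 3 5).sub (hQ 3 0))
    (by
      intro i
      fin_cases i
      · exact (hQ 1 2).sub (hQ 1 1)
      · exact (hQ 2 0).sub (hQ 2 5)
      · exact (hQ 3 1).sub (hQ 3 0))
    (by
      intro i
      fin_cases i
      · exact hst 1 1
      · exact hst 2 5
      · exact hst 3 0)
    (Eventually.of_forall fun n i => by
      fin_cases i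
      · have := r2 n
        have e1 : q n 1 0 - q n 1 1 = -(q n 1 1 - q n 1 0) := by abel
        have e2 : q n 2 0 - q n 2 5 = -(q n 2 5 - q n 2 0) := by abel
        have e3 : ∀ (c s : ℝ) (v : Pl), Am (ν n) c s (-v) = - Am (ν n) c s v := by
          intro c s v
          apply pl_ext
          · simp; ring
          · simp; ring
        show Am (ν n) (c n 1) (s n 1) (q n 1 0 - q n 1 1) =
          Am (ν n) (c n 2) (s n 2) (q n 2 0 - q n 2 5)
        rw [e1, e2, e3, e3, this]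
      · exact r5 n
      · exact (r4 n).symm)
  have hdb : ∀ i, ∃ C, ∀ᶠ n in (U : Filter ℕ), |d n i| ≤ C := by
    obtain ⟨C1, hC1⟩ := b1 0
    obtain ⟨C2, hC2⟩ := b1 2
    obtain ⟨C3, hC3⟩ := b2 1
    have hC1' : ∀ᶠ n in (U : Filter ℕ), |s n 0 * c n 2 - c n 0 * s n 2| ≤ C1 := hC1
    have hC2' : ∀ᶠ n in (U : Filter ℕ), |s n 1 * c n 0 - c n 1 * s n 0| ≤ C2 := hC2
    have hC3' : ∀ᶠ n in (U : Filter ℕ), |s n 2 * c n 3 - c n 2 * s n 3| ≤ C3 := hC3
    intro i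
    fin_cases i
    · refine ⟨0, Eventually.of_forall fun n => ?_⟩
      show |c n 0 * s n 0 - s n 0 * c n 0| ≤ 0
      rw [mul_comm, sub_self, abs_zero]
    · refine ⟨C2, hC2'.mono fun n h => ?_⟩
      show |c n 0 * s n 1 - s n 0 * c n 1| ≤ C2
      rw [show c n 0 * s n 1 - s n 0 * c n 1 = s n 1 * c n 0 - c n 1 * s n 0 by ring]
      exact h
    · refine ⟨C1, hC1'.mono fun n h => ?_⟩
      show |c n 0 * s n 2 - s n 0 * c n 2| ≤ C1
      rw [show c n 0 * s n 2 - s n 0 * c n 2 = -(s n 0 * c n 2 - c n 0 * s n 2) by ring, abs_neg]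
      exact h
    · refine ⟨C1 + C3, ?_⟩
      filter_upwards [hC1', hC3'] with n f1 f3
      show |c n 0 * s n 3 - s n 0 * c n 3| ≤ C1 + C3
      have hg23 : |c n 2 * c n 3 + ν n * s n 2 * s n 3| ≤ 1 := by
        rw [← sq_le_one_iff_abs_le_one]
        have e : (c n 2 * c n 3 + ν n * s n 2 * s n 3) ^ 2 +
            ν n * (s n 2 * c n 3 - c n 2 * s n 3) ^ 2 = 1 := by
          linear_combination (c n 3 ^ 2 + ν n * s n 3 ^ 2) * hcs n 2 + hcs n 3
        have := mul_nonneg (hν1 n).le (sq_nonneg (s n 2 * c n 3 - c n 2 * s n 3))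
        linarith
      have hid : c n 0 * s n 3 - s n 0 * c n 3 =
          -((s n 0 * c n 2 - c n 0 * s n 2) * (c n 2 * c n 3 + ν n * s n 2 * s n 3)) -
            g n 2 * (s n 2 * c n 3 - c n 2 * s n 3) := by
        simp only [hgd]
        linear_combination (-(c n 0 * s n 3 - s n 0 * c n 3)) * hcs n 2
      rw [hid]
      calc |-((s n 0 * c n 2 - c n 0 * s n 2) * (c n 2 * c n 3 + ν n * s n 2 * s n 3)) -
            g n 2 * (s n 2 * c n 3 - c n 2 * s n 3)|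
          ≤ |-((s n 0 * c n 2 - c n 0 * s n 2) * (c n 2 * c n 3 + ν n * s n 2 * s n 3))| +
            |g n 2 * (s n 2 * c n 3 - c n 2 * s n 3)| := abs_sub _ _
        _ = |s n 0 * c n 2 - c n 0 * s n 2| * |c n 2 * c n 3 + ν n * s n 2 * s n 3| +
            |g n 2| * |s n 2 * c n 3 - c n 2 * s n 3| := by rw [abs_neg, abs_mul, abs_mul]
        _ ≤ C1 * 1 + 1 * C3 := by
            gcongr
            · exact le_trans (abs_nonneg _) f1
            · exact hg1 n 2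
        _ = C1 + C3 := by ring
  have hdl : ∀ i, ∃ l, Tendsto (fun n => d n i) (U : Filter ℕ) (𝓝 l) := fun i => by
    obtain ⟨C, hC⟩ := hdb i
    exact ulim_real U _ C hC
  have hgl : ∀ i, ∃ l, Tendsto (fun n => g n i) (U : Filter ℕ) (𝓝 l) := fun i =>
    ulim_real U _ 1 (Eventually.of_forall fun n => hg1 n i)
  choose D hD using hdl
  choose G hG using hgl
  have hG2 : ∀ i, G i ^ 2 = 1 := by
    intro i
    have e1 : Tendsto (fun n => g n i ^ 2 + ν n * d n i ^ 2) (U : Filter ℕ)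
        (𝓝 (G i ^ 2 + 0 * D i ^ 2)) := ((hG i).pow 2).add (hν.mul ((hD i).pow 2))
    have e2 : Tendsto (fun n => g n i ^ 2 + ν n * d n i ^ 2) (U : Filter ℕ) (𝓝 1) := by
      simp only [hgg]; exact tendsto_const_nhds
    have := tendsto_nhds_unique e1 e2
    linarith
  -- limits of vectors seen from the frame of A
  have hlim : ∀ (i : Fin 4) (x : ℕ → Pl) (X : Pl), Tendsto x (U : Filter ℕ) (𝓝 X) →
      Tendsto (fun n => Am (ν n) (g n i) (d n i) (x n)) (U : Filter ℕ)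
        (𝓝 (Sh (G i * D i) (G i • X))) := by
    intro i x X hxX
    have h0 := tendsto_coord hxX 0
    have h1 := tendsto_coord hxX 1
    refine tendsto_pl ?_ ?_
    · have := ((hG i).mul h0).sub ((hν.mul (hD i)).mul h1)
      refine (this.congr fun n => ?_).trans (le_of_eq ?_)
      · simp
      · simp
    · have := ((hD i).mul h0).add ((hG i).mul h1)
      refine (this.congr fun n => ?_).trans (le_of_eq ?_)
      · simp
      · simp only [Sh_one, PiLp.smul_apply, smul_eq_mul]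
        congr 1
        linear_combination (-(D i * X 0)) * hG2 i
  have hrelL : ∀ (i j : Fin 4) (x y : ℕ → Pl) (X Y : Pl),
      Tendsto x (U : Filter ℕ) (𝓝 X) → Tendsto y (U : Filter ℕ) (𝓝 Y) →
      (∀ n, Am (ν n) (c n i) (s n i) (x n) = Am (ν n) (c n j) (s n j) (y n)) →
      Sh (G i * D i) (G i • X) = Sh (G j * D j) (G j • Y) := by
    intro i j x y X Y hxX hyY hxy
    refine tendsto_nhds_unique (hlim i x X hxX) ((hlim j y Y hyY).congr fun n => ?_)
    have h3 := hxy n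
    rw [am_comp (hcs n 0), am_comp (c' := c n j) (hcs n 0)] at h3
    exact (am_inj (hcs n 0) h3).symm
  have smul_sub' : ∀ (i : Fin 4) (k l : Fin 6), G i • (Q i k - Q i l) =
      G i • Q i k - G i • Q i l := fun i k l => smul_sub _ _ _
  have hfin := hx a b hab t0 (fun i => G i * D i) (fun i k => G i • Q i k)
    (fun i => Conv6_smul (G i) (hG2 i) (hQc i))
    (fun i k => InBody_smul hsym (G i) (hG2 i) (hQb i k))
    (fun i => by rw [ar6_smul (Q i) (G i) (hG2 i)]; exact hQa i)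
    (by
      have := hrelL 0 2 _ _ _ _ ((hQ 0 5).sub (hQ 0 0)) ((hQ 2 1).sub (hQ 2 0)) r1
      rw [smul_sub', smul_sub'] at this
      exact this)
    (by
      have := hrelL 2 1 _ _ _ _ ((hQ 2 5).sub (hQ 2 0)) ((hQ 1 1).sub (hQ 1 0)) r2
      rw [smul_sub', smul_sub'] at this
      exact this)
    (by
      have := hrelL 1 0 _ _ _ _ ((hQ 1 5).sub (hQ 1 0)) ((hQ 0 1).sub (hQ 0 0)) r3
      rw [smul_sub', smul_sub'] at this
      exact this)
    (by
      have := hrelL 1 3 _ _ _ _ ((hQ 1 2).sub (hQ 1 1)) ((hQ 3 5).sub (hQ 3 0)) r4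
      rw [smul_sub', smul_sub'] at this
      exact this)
    (by
      have := hrelL 2 3 _ _ _ _ ((hQ 2 4).sub (hQ 2 5)) ((hQ 3 1).sub (hQ 3 0)) r5
      rw [smul_sub', smul_sub'] at this
      exact this)
    (by
      have e1 : Tendsto (fun n => (q n 0 1 - q n 0 0) 0) (U : Filter ℕ) (𝓝 0) := by
        rw [tendsto_zero_iff_abs_tendsto_zero]
        exact squeeze_zero (fun n => abs_nonneg _) hom hδ
      have e2 := tendsto_nhds_unique e1 (tendsto_coord ((hQ 0 1).sub (hQ 0 0)) 0)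
      simp only [PiLp.sub_apply, PiLp.smul_apply, smul_eq_mul] at e2 ⊢
      rw [← mul_sub, ← e2, mul_zero])
    (by
      have e0 : Tendsto (fun n : ℕ => 3 * (1 / ((n : ℝ) + 1))) (U : Filter ℕ) (𝓝 0) := by
        have := hδ.const_mul (3 : ℝ)
        rwa [mul_zero] at this
      have e1 : Tendsto (fun n => (q n 2 2 - q n 2 1) 0) (U : Filter ℕ) (𝓝 0) := by
        rw [tendsto_zero_iff_abs_tendsto_zero]
        exact squeeze_zero (fun n => abs_nonneg _) hc1 e0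
      have e2 := tendsto_nhds_unique e1 (tendsto_coord ((hQ 2 2).sub (hQ 2 1)) 0)
      simp only [PiLp.sub_apply, PiLp.smul_apply, smul_eq_mul] at e2 ⊢
      rw [← mul_sub, ← e2, mul_zero])
  -- the limit of the cross product
  have hcl := tendsto_cr (hlim 0 _ _ ((hQ 0 0).sub (hQ 0 4))) (hlim 1 _ _ ((hQ 1 2).sub (hQ 1 0)))
  rw [smul_sub', smul_sub'] at hcl
  rw [hfin] at hcl
  have hev : ∀ᶠ n in (U : Filter ℕ), |cr (Am (ν n) (g n 0) (d n 0) (q n 0 0 - q n 0 4))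
      (Am (ν n) (g n 1) (d n 1) (q n 1 2 - q n 1 0))| < κ := by
    have := hcl.abs
    rw [abs_zero] at this
    exact this.eventually (gt_mem_nhds hκ)
  obtain ⟨n, hn⟩ := hev.exists
  have h5 := hbad n
  rw [pos_one_zero, pos_one_zero, pos_one_zero, pos_one_zero, add_sub_add_left_eq_sub,
    add_sub_add_left_eq_sub, ← Am_sub, ← Am_sub, am_comp (c' := c n 0) (hcs n 0),
    am_comp (c' := c n 1) (hcs n 0), cr_Am' (hcs n 0)] at h5
  exact lt_irrefl _ (h5.trans hn)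

end C2305b.Rig.H73
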