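import Pool.Agent.W_c2305b_h19.Blk

/-!
# [TR]: translation and rotation of tilings, blocks and costs (MP_c2305b_co, part B)
-/

namespace C2305b.TL

open Set Module MeasureTheory

noncomputable section

variable {ι : Type*}

/-! ### translation of sets -/

/-- membership in a translated set -/
theorem mem_sub_image {a : V} {S : Set V} {x : V} :
    x ∈ (fun z => z - a) '' S ↔ x + a ∈ S := by
  constructor
  · rintro ⟨z, hz, rfl⟩
    simpa using hz
  · intro h
    exact ⟨x + a, h, by simp⟩

theorem sub_mem_sub_image {a : V} {S : Set V} {x : V} :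
    x - a ∈ (fun z => z - a) '' S ↔ x ∈ S := by
  rw [mem_sub_image, sub_add_cancel]

theorem sub_inj' (a : V) : Function.Injective (fun z : V => z - a) := sub_left_injective

theorem interior_sub_image (a : V) (S : Set V) :
    interior ((fun z => z - a) '' S) = (fun z => z - a) '' interior S :=
  ((Homeomorph.subRight a).image_interior S).symm

theorem convex_sub_image (a : V) {S : Set V} (h : Convex ℝ S) :
    Convex ℝ ((fun z => z - a) '' S) := by
  have h1 : (fun z : V => z - a) = fun z => -a + z := by funext z; abel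
  rw [h1]; exact h.translate (-a)

theorem hull_sub_image (a : V) (S : Set V) :
    convexHull ℝ ((fun z => z - a) '' S) = (fun z => z - a) '' convexHull ℝ S := by
  apply Subset.antisymm
  · refine convexHull_min (image_mono (subset_convexHull ℝ S)) ?_
    exact convex_sub_image a (convex_convexHull ℝ S)
  · rw [image_subset_iff]
    refine convexHull_min ?_ ?_
    · intro z hz
      exact subset_convexHull ℝ _ ⟨z, hz, rfl⟩
    · intro x hx y hy s t hs ht hst
      have h1 := convex_convexHull ℝ ((fun z => z - a) '' S) hx hy hs ht hst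
      simp only [mem_preimage] at h1 ⊢
      have h2 : s • x + t • y - a = s • (x - a) + t • (y - a) := by
        rw [smul_sub, smul_sub]
        have h3 : a = s • a + t • a := by rw [← add_smul, hst, one_smul]
        nth_rewrite 1 [h3]
        abel
      rw [h2]
      exact h1

theorem openSegment_sub {a x v w : V} :
    x - a ∈ openSegment ℝ (v - a) (w - a) ↔ x ∈ openSegment ℝ v w := by
  have h1 : openSegment ℝ (v - a) (w - a) = (fun z => z - a) '' openSegment ℝ v w := by
    ext y
    rw [mem_sub_image]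
    constructor
    · rintro ⟨s, t, hs, ht, hst, rfl⟩
      refine ⟨s, t, hs, ht, hst, ?_⟩
      have h3 : a = s • a + t • a := by rw [← add_smul, hst, one_smul]
      rw [smul_sub, smul_sub]
      nth_rewrite 3 [h3]
      abel
    · rintro ⟨s, t, hs, ht, hst, h⟩
      refine ⟨s, t, hs, ht, hst, ?_⟩
      have h3 : a = s • a + t • a := by rw [← add_smul, hst, one_smul]
      have h4 : y = s • v + t • w - a := by rw [h]; abel
      rw [h4, smul_sub, smul_sub]
      nth_rewrite 3 [h3]
      abel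
  rw [h1, sub_mem_sub_image]

theorem openSegment_add {a x v w : V} :
    x ∈ openSegment ℝ v w ↔ x + a ∈ openSegment ℝ (v + a) (w + a) := by
  rw [← openSegment_sub (a := a) (x := x + a) (v := v + a) (w := w + a)]
  simp

theorem volume_sub_image (a : V) (S : Set V) :
    volume ((fun z => z - a) '' S) = volume S := by
  have h1 : (fun z : V => z - a) = fun z => -a + z := by funext z; abel
  rw [h1, image_add_left, measure_preimage_add]

/-! ### translation of a tiling -/

open Classical in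
/-- The tiling translated by `-a`. -/
def Tiling.shift (T : Tiling ι) (a : V) : Tiling ι where
  R := (fun z => z - a) '' T.R
  P i := (fun z => z - a) '' T.P i
  W := T.W.image fun z => z - a
  convR := convex_sub_image a T.convR
  conv i := convex_sub_image a (T.conv i)
  comp i := (T.comp i).image (by fun_prop)
  nonem i := by
    rw [interior_sub_image]
    exact (T.nonem i).image _
  disj i j hij := by
    show Disjoint (interior ((fun z => z - a) '' T.P i)) (interior ((fun z => z - a) '' T.P j))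
    rw [interior_sub_image, interior_sub_image, Set.disjoint_image_iff (sub_inj' a)]
    exact T.disj hij
  union := by rw [← image_iUnion, T.union]
  hull i := by
    rw [Finset.coe_image, ← image_inter (sub_inj' a), hull_sub_image, ← T.hull i]
  vert i v hv hvi := by
    rw [interior_sub_image] at hvi
    obtain ⟨x, hx, rfl⟩ := hvi
    obtain ⟨y, hy, hyx⟩ := Finset.mem_image.1 hv
    rw [sub_inj' a hyx] at hy
    exact T.vert i x hy hx

namespace Tiling

variable (T : Tiling ι) (a : V)

@[simp] lemma shift_R : (T.shift a).R = (fun z => z - a) '' T.R := rfl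

@[simp] lemma shift_P (i : ι) : (T.shift a).P i = (fun z => z - a) '' T.P i := rfl

lemma mem_shift_W {v : V} : v ∈ (T.shift a).W ↔ v + a ∈ T.W := by
  classical
  have : (T.shift a).W = T.W.image fun z => z - a := by unfold shift; congr!
  rw [this, Finset.mem_image]
  constructor
  · rintro ⟨x, hx, rfl⟩; simpa using hx
  · intro h; exact ⟨v + a, h, by simp⟩

lemma mem_shift_P {i : ι} {v : V} : v ∈ (T.shift a).P i ↔ v + a ∈ T.P i := mem_sub_image

lemma mem_shift_R {v : V} : v ∈ (T.shift a).R ↔ v + a ∈ T.R := mem_sub_image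

theorem shift_E {i : ι} {v w : V} : (T.shift a).E i v w ↔ T.E i (v + a) (w + a) := by
  unfold E
  rw [mem_shift_W, mem_shift_W, mem_shift_P, mem_shift_P, (add_left_injective a).ne_iff]
  refine and_congr_right fun _ => and_congr_right fun _ => and_congr_right fun _ =>
    and_congr ?_ ?_
  · constructor
    · intro h x hx
      have := h (x - a) (by rw [mem_shift_P, sub_add_cancel]; exact hx)
      have e1 : w + a - (v + a) = w - v := by abel
      have e2 : x - a - v = x - (v + a) := by abel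
      rw [e1, ← e2]; exact this
    · intro h x hx
      have := h (x + a) ((T.mem_shift_P a).1 hx)
      have e1 : w + a - (v + a) = w - v := by abel
      have e2 : x + a - (v + a) = x - v := by abel
      rw [e1, e2] at this; exact this
  · constructor
    · intro h y hy hys
      refine h (y - a) ((T.mem_shift_W a).2 (by rw [sub_add_cancel]; exact hy)) ?_
      rw [openSegment_add (a := a), sub_add_cancel]
      exact hys
    · intro h y hy hys
      exact h (y + a) ((T.mem_shift_W a).1 hy) (openSegment_add.1 hys)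

theorem shift_Tw {i j : ι} {v w : V} :
    (T.shift a).Tw i j v w ↔ T.Tw i j (v + a) (w + a) := by
  unfold Tw
  rw [shift_E, shift_E]

theorem mem_shift_edges {i : ι} {p : V × V} :
    p ∈ (T.shift a).edges i ↔ (p.1 + a, p.2 + a) ∈ T.edges i := by
  rw [mem_edges, mem_edges, T.shift_E]

theorem card_shift_edges (i : ι) : ((T.shift a).edges i).card = (T.edges i).card := by
  refine Finset.card_nbij' (fun p => (p.1 + a, p.2 + a)) (fun p => (p.1 - a, p.2 - a))
    ?_ ?_ ?_ ?_
  · intro p hp
    exact (T.mem_shift_edges a).1 hp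
  · intro p hp
    have hp' : p ∈ T.edges i := hp
    show (p.1 - a, p.2 - a) ∈ (T.shift a).edges i
    rw [mem_shift_edges]
    simpa using hp'
  · intro p _; simp
  · intro p _; simp

theorem shift_Sharp (h : T.Sharp) : (T.shift a).Sharp := by
  intro w hw
  rcases h _ ((T.mem_shift_W a).1 hw) with h1 | ⟨k, hk⟩
  · refine Or.inl fun h2 => h1 ?_
    rw [shift_R, interior_sub_image, mem_sub_image] at h2
    exact h2
  · refine Or.inr ⟨k, ?_⟩
    rw [mem_extremePoints] at hk ⊢
    refine ⟨(T.mem_shift_P a).2 hk.1, fun x hx y hy hxy => ?_⟩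
    have h3 := hk.2 (x + a) ((T.mem_shift_P a).1 hx) (y + a) ((T.mem_shift_P a).1 hy)
      (openSegment_add.1 hxy)
    exact ⟨add_right_cancel h3.1, add_right_cancel h3.2⟩

end Tiling

end

end C2305b.TL

namespace C2305bB

open Set MeasureTheory C2305b.TL
open C2305bH52 (needle)

noncomputable section

/-- Translation by `-a`, then the rotation. -/
def mv (L g1 g2 : ℝ) (hL : L ≠ 0) (h : g1 ^ 2 + g2 ^ 2 = 1) (a : V) (z : V) : V :=
  C2305b.TL.rot L g1 g2 hL h (z - a)

section mv

variable {L g1 g2 : ℝ} (hL : L ≠ 0) (h : g1 ^ 2 + g2 ^ 2 = 1) (a : V)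

theorem mv_sub (u v : V) : mv L g1 g2 hL h a u - mv L g1 g2 hL h a v =
    C2305b.TL.rot L g1 g2 hL h (u - v) := by
  unfold mv
  rw [← map_sub]
  congr 1
  abel

theorem mv_inj : Function.Injective (mv L g1 g2 hL h a) := by
  intro u v huv
  exact sub_inj' a ((C2305b.TL.rot L g1 g2 hL h).injective huv)

theorem cr_mv (u v x y : V) :
    cr (mv L g1 g2 hL h a u - mv L g1 g2 hL h a v) (mv L g1 g2 hL h a x - mv L g1 g2 hL h a y) =
      cr (u - v) (x - y) := by
  rw [mv_sub, mv_sub, cr_rot]

theorem sp_mv (u v x y : V) :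
    sp L (mv L g1 g2 hL h a u - mv L g1 g2 hL h a v)
      (mv L g1 g2 hL h a x - mv L g1 g2 hL h a y) = sp L (u - v) (x - y) := by
  rw [mv_sub, mv_sub]
  exact form_rot hL h (u - v) (x - y)

/-- the inverse map -/
def mvi (L g1 g2 : ℝ) (hL : L ≠ 0) (h : g1 ^ 2 + g2 ^ 2 = 1) (a : V) (z : V) : V :=
  (C2305b.TL.rot L g1 g2 hL h).symm z + a

theorem mv_mvi (z : V) : mv L g1 g2 hL h a (mvi L g1 g2 hL h a z) = z := by
  unfold mv mvi; simp

theorem mvi_mv (z : V) : mvi L g1 g2 hL h a (mv L g1 g2 hL h a z) = z := by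
  unfold mv mvi; simp

theorem image_mv (S : Set V) : mv L g1 g2 hL h a '' S =
    C2305b.TL.rot L g1 g2 hL h '' ((fun z => z - a) '' S) := by
  rw [image_image]; rfl

theorem mem_image_mv {S : Set V} {z : V} :
    mv L g1 g2 hL h a z ∈ mv L g1 g2 hL h a '' S ↔ z ∈ S :=
  (mv_inj hL h a).mem_set_image

theorem interior_mv (S : Set V) : interior (mv L g1 g2 hL h a '' S) =
    mv L g1 g2 hL h a '' interior S := by
  rw [image_mv, image_mv, ← Tiling.image_interior, interior_sub_image]

theorem convex_mv {S : Set V} (hS : Convex ℝ S) : Convex ℝ (mv L g1 g2 hL h a '' S) := by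
  rw [image_mv]
  exact (convex_sub_image a hS).linear_image
    ((C2305b.TL.rot L g1 g2 hL h : V ≃L[ℝ] V) : V →ₗ[ℝ] V)

theorem volume_mv (S : Set V) : volume (mv L g1 g2 hL h a '' S) = volume S := by
  rw [image_mv, volume_image (cr_rot hL h), volume_sub_image]

theorem openSegment_mv {x v w : V} :
    mv L g1 g2 hL h a x ∈ openSegment ℝ (mv L g1 g2 hL h a v) (mv L g1 g2 hL h a w) ↔
      x ∈ openSegment ℝ v w := by
  unfold mv
  rw [Tiling.mem_openSeg, openSegment_sub]

theorem needle_mv (F : Fr) (o z : V) (ρ : ℝ) :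
    mv L g1 g2 hL h a z ∈ needle L (F.rot g1 g2 h) (mv L g1 g2 hL h a o) ρ ↔
      z ∈ needle L F o ρ := by
  unfold mv
  rw [C2305bH52.needle_rot hL F h]
  show Fits L F ρ ((z - a - (o - a)) 0) ((z - a - (o - a)) 1) ↔ Fits L F ρ ((z - o) 0) ((z - o) 1)
  rw [sub_sub_sub_cancel_right]

theorem cap_mv (D : Set V) (p q : V) :
    W82.cap (mv L g1 g2 hL h a '' D) (mv L g1 g2 hL h a p) (mv L g1 g2 hL h a q) =
      mv L g1 g2 hL h a '' W82.cap D p q := by
  ext z
  constructor
  · rintro ⟨⟨x, hx, rfl⟩, hz⟩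
    refine ⟨x, ⟨hx, ?_⟩, rfl⟩
    rw [cr_mv] at hz
    exact hz
  · rintro ⟨x, ⟨hx, hx2⟩, rfl⟩
    refine ⟨⟨x, hx, rfl⟩, ?_⟩
    rw [cr_mv]
    exact hx2

end mv

section Move

variable {J : Type} (T : Tiling J) (D : Set V) (F : J → Fr) (W : ℕ) (q : ℕ → V)
  {L g1 g2 : ℝ} (hL : L ≠ 0) (h : g1 ^ 2 + g2 ^ 2 = 1) (a : V)

/-- the moved tiling -/
def mvT : Tiling J := (T.shift a).map (C2305b.TL.rot L g1 g2 hL h)

theorem mvT_R : (mvT T hL h a).R = mv L g1 g2 hL h a '' T.R := (image_mv hL h a T.R).symm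

theorem mvT_P (i : J) : (mvT T hL h a).P i = mv L g1 g2 hL h a '' T.P i :=
  (image_mv hL h a (T.P i)).symm

theorem mvT_W {v : V} : mv L g1 g2 hL h a v ∈ (mvT T hL h a).W ↔ v ∈ T.W := by
  unfold mvT mv
  rw [Tiling.mem_map_W, Tiling.mem_shift_W, sub_add_cancel]

theorem mvT_W' {v : V} : v ∈ (mvT T hL h a).W ↔ mvi L g1 g2 hL h a v ∈ T.W := by
  rw [← mvT_W T hL h a, mv_mvi]

theorem mvT_Tw {i j : J} {v w : V} :
    (mvT T hL h a).Tw i j v w ↔ T.Tw i j (mvi L g1 g2 hL h a v) (mvi L g1 g2 hL h a w) := by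
  unfold mvT mvi
  rw [Tiling.map_Tw' _ (cr_rot hL h), Tiling.shift_Tw]

theorem mvT_card_edges (i : J) : ((mvT T hL h a).edges i).card = (T.edges i).card := by
  unfold mvT
  rw [Tiling.card_map_edges _ (cr_rot hL h), Tiling.card_shift_edges]

theorem goodSides_move (τ : ℝ) :
    goodSides τ (mv L g1 g2 hL h a '' D) W (fun r => mv L g1 g2 hL h a (q r)) =
      goodSides τ D W q := by
  classical
  unfold goodSides
  refine Finset.filter_congr fun r _ => ?_
  rw [cap_mv, volume_mv]

theorem card_sideVerts_move :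
    (Tiling.sideVerts (mvT T hL h a) W (fun r => mv L g1 g2 hL h a (q r))).card =
      (Tiling.sideVerts T W q).card := by
  classical
  refine Finset.card_nbij' (mvi L g1 g2 hL h a) (mv L g1 g2 hL h a) ?_ ?_ ?_ ?_
  · intro w hw
    have hw' := hw
    rw [Finset.mem_coe] at hw' ⊢
    unfold Tiling.sideVerts at hw' ⊢
    rw [Finset.mem_filter] at hw' ⊢
    obtain ⟨h1, r, hr, h2⟩ := hw'
    refine ⟨(mvT_W' T hL h a).1 h1, r, hr, ?_⟩
    rw [← openSegment_mv hL h a, mv_mvi]
    exact h2
  · intro w hw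
    have hw' := hw
    rw [Finset.mem_coe] at hw' ⊢
    unfold Tiling.sideVerts at hw' ⊢
    rw [Finset.mem_filter] at hw' ⊢
    obtain ⟨h1, r, hr, h2⟩ := hw'
    exact ⟨(mvT_W T hL h a).2 h1, r, hr, (openSegment_mv hL h a).2 h2⟩
  · intro w _; exact mv_mvi hL h a w
  · intro w _; exact mvi_mv hL h a w

theorem meets_move (s : J × J) :
    Meets (mvT T hL h a) (mv L g1 g2 hL h a (q 0)) (mv L g1 g2 hL h a (q W)) s ↔
      Meets T (q 0) (q W) s := by
  constructor
  · rintro ⟨v, w, h1, h2⟩
    refine ⟨mvi L g1 g2 hL h a v, mvi L g1 g2 hL h a w, (mvT_Tw T hL h a).1 h1, ?_⟩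
    rw [← mv_mvi hL h a v, ← mv_mvi hL h a w, cr_mv, cr_mv] at h2
    exact h2
  · rintro ⟨v, w, h1, h2⟩
    refine ⟨mv L g1 g2 hL h a v, mv L g1 g2 hL h a w, (mvT_Tw T hL h a).2 ?_, ?_⟩
    · rw [mvi_mv, mvi_mv]; exact h1
    · rw [cr_mv, cr_mv]; exact h2

theorem lvl1_move {κ b : ℝ} {Bad : Finset (J × J)} (hB : Lvl1 L κ b T F Bad) :
    Lvl1 L κ b (mvT T hL h a) (fun i => (F i).rot g1 g2 h) Bad := by
  intro i j v w hvw hij
  obtain ⟨h1, h2, h3⟩ := hB i j _ _ ((mvT_Tw T hL h a).1 hvw) hij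
  refine ⟨?_, ?_, ?_⟩
  · rw [mis_rot]; exact h1
  · rw [mvT_card_edges]; exact h2
  · rw [mvT_P, volume_mv]; exact h3

theorem lvl2_move {κ : ℝ} {Bad : Finset (J × J)} (hB : Lvl2 L κ T F Bad) :
    Lvl2 L κ (mvT T hL h a) (fun i => (F i).rot g1 g2 h) Bad := by
  intro i j v w hvw hij
  have h1 := hB i j _ _ ((mvT_Tw T hL h a).1 hvw) hij
  rw [mis_rot]; exact h1

variable {T D F W q}

/-- Blocks are invariant. -/
theorem Blk.move' {R η : ℝ} (B : Blk L R η T D F W q) :
    Blk L R η (mvT T hL h a) (mv L g1 g2 hL h a '' D) (fun i => (F i).rot g1 g2 h) W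
      (fun r => mv L g1 g2 hL h a (q r)) where
  convD := convex_mv hL h a B.convD
  sub := by
    rw [mvT_R]; exact image_mono B.sub
  intR := by
    rw [mvT_R, interior_mv]; exact B.intR.image _
  sharp := Tiling.map_Sharp _ (Tiling.shift_Sharp _ _ B.sharp)
  fit := by
    intro i z hz z' hz'
    rw [mvT_P] at hz hz'
    obtain ⟨x, hx, rfl⟩ := hz
    obtain ⟨x', hx', rfl⟩ := hz'
    have h1 := B.fit i x hx x' hx'
    rw [← PiLp.sub_apply, ← PiLp.sub_apply, mv_sub, fits_rot hL (F i) h]
    rw [PiLp.sub_apply, PiLp.sub_apply]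
    exact h1
  qW r hr := (mvT_W T hL h a).2 (B.qW r hr)
  qR r hr := by
    rw [mvT_R, mem_image_mv]; exact B.qR r hr
  qD r hr := by
    rw [interior_mv, mem_image_mv]; exact B.qD r hr
  ne r hr := fun h1 => B.ne r hr (mv_inj hL h a h1)
  hs r hr z hz := by
    rw [mvT_R] at hz
    obtain ⟨x, hx, rfl⟩ := hz
    rw [cr_mv]; exact B.hs r hr x hx
  cap r hr := by
    obtain ⟨G, o, h1, h2, h3⟩ := B.cap r hr
    refine ⟨G.rot g1 g2 h, mv L g1 g2 hL h a o, (needle_mv hL h a G o _ _).2 h1,
      (needle_mv hL h a G o _ _).2 h2, ?_⟩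
    rw [cap_mv]
    rintro _ ⟨x, hx, rfl⟩
    exact (needle_mv hL h a G o _ _).2 (h3 hx)
  flat r hr r' hr' := by
    obtain ⟨h1, h2⟩ := B.flat r hr r' hr'
    rw [sp_mv, cr_mv]
    exact ⟨h1, h2⟩

/-- Costs are invariant. -/
theorem Cost.move' {τ b κ κ' γ A C1 C2 L1 : ℝ} (C : Cost L τ b κ κ' γ A C1 C2 L1 T D F W q) :
    Cost L τ b κ κ' γ A C1 C2 L1 (mvT T hL h a) (mv L g1 g2 hL h a '' D)
      (fun i => (F i).rot g1 g2 h) W (fun r => mv L g1 g2 hL h a (q r)) where
  good := by
    rw [goodSides_move]; exact C.good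
  verts := by
    rw [card_sideVerts_move]; exact C.verts
  bad hL1 := by
    classical
    obtain ⟨Bad1, Bad2, h1, h2, h3, h4⟩ := C.bad hL1
    have key : ∀ Bad : Finset (J × J), (Bad.filter fun s => Meets (mvT T hL h a)
        (mv L g1 g2 hL h a (q 0)) (mv L g1 g2 hL h a (q W)) s).card =
        (Bad.filter fun s => Meets T (q 0) (q W) s).card := fun Bad =>
      congrArg Finset.card (Finset.filter_congr fun s _ => meets_move T W q hL h a s)
    refine ⟨Bad1, Bad2, lvl1_move T F hL h a h1, lvl2_move T F hL h a h2, ?_, ?_⟩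
    · have := key Bad1
      convert h3 using 2
    · have := key Bad2
      convert h4 using 2

/-- Blocks are invariant, explicit form. -/
theorem Blk.move {R η : ℝ} (hL0 : 0 < L) (B : Blk L R η T D F W q) (a : V)
    (h : g1 ^ 2 + g2 ^ 2 = 1) :
    Blk L R η ((T.shift a).map (C2305b.TL.rot L g1 g2 hL0.ne' h))
      ((fun z => C2305b.TL.rot L g1 g2 hL0.ne' h (z - a)) '' D)
      (fun i => (F i).rot g1 g2 h) W
      (fun r => C2305b.TL.rot L g1 g2 hL0.ne' h (q r - a)) :=
  B.move' hL0.ne' h a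

/-- Costs are invariant, explicit form. -/
theorem Cost.move {τ b κ κ' γ A C1 C2 L1 : ℝ} (hL0 : 0 < L)
    (C : Cost L τ b κ κ' γ A C1 C2 L1 T D F W q) (a : V) (h : g1 ^ 2 + g2 ^ 2 = 1) :
    Cost L τ b κ κ' γ A C1 C2 L1 ((T.shift a).map (C2305b.TL.rot L g1 g2 hL0.ne' h))
      ((fun z => C2305b.TL.rot L g1 g2 hL0.ne' h (z - a)) '' D)
      (fun i => (F i).rot g1 g2 h) W
      (fun r => C2305b.TL.rot L g1 g2 hL0.ne' h (q r - a)) :=
  C.move' hL0.ne' h a

/-- Good sides are invariant, explicit form. -/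
theorem goodSides_mv (τ : ℝ) (D : Set V) (W : ℕ) (q : ℕ → V) (a : V) :
    goodSides τ ((fun z => C2305b.TL.rot L g1 g2 hL h (z - a)) '' D) W
      (fun r => C2305b.TL.rot L g1 g2 hL h (q r - a)) = goodSides τ D W q :=
  goodSides_move D W q hL h a τ

end Move

end

end C2305bB
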