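import Pool.Agent.W_c2305b_h86.Defs

/-!
# Row 552: regular tiles in the moved tiling (MP_c2305b_co)
-/

namespace C2305bG

open Set MeasureTheory C2305b.TL
open C2305bB (Fr mis mv mvi mvT mv_mvi mvi_mv mv_sub mv_inj image_mv mem_image_mv interior_mv
  volume_mv openSegment_mv mvT_R mvT_P mvT_W mvT_W' mvT_Tw mvT_card_edges mis_rot)

noncomputable section

section

variable {L g1 g2 : ℝ} (hL : L ≠ 0) (h : g1 ^ 2 + g2 ^ 2 = 1) (z : V)

/-- The local coordinates of a rotated vector in the rotated frame, up to a common sign. -/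
theorem lx_ly_rot (F : Fr) : ∃ e : ℝ, (e = 1 ∨ e = -1) ∧ ∀ v : V,
    lx L (F.rot g1 g2 h) (C2305b.TL.rot L g1 g2 hL h v) = e * lx L F v ∧
      ly L (F.rot g1 g2 h) (C2305b.TL.rot L g1 g2 hL h v) = e * ly L F v := by
  obtain ⟨e, he, h1, h2⟩ := F.rot_cases g1 g2 h
  refine ⟨e, he, fun v => ?_⟩
  unfold lx ly
  rw [h1, h2, rot_0, rot_1]
  constructor
  · field_simp
    linear_combination e * (F.c * v 0 * L + F.S * v 1) * h
  · field_simp
    linear_combination e * (F.c * v 1 - L * F.S * v 0) * h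

variable {J : Type} (T : Tiling J)

theorem mvT_E {i : J} {v w : V} :
    (mvT T hL h z).E i v w ↔ T.E i (mvi L g1 g2 hL h z v) (mvi L g1 g2 hL h z w) := by
  unfold mvT mvi
  rw [Tiling.map_E' _ (cr_rot hL h), Tiling.shift_E]

theorem mem_mvT_edges {i : J} {p : V × V} : p ∈ (mvT T hL h z).edges i ↔
    (mvi L g1 g2 hL h z p.1, mvi L g1 g2 hL h z p.2) ∈ T.edges i := by
  rw [Tiling.mem_edges, Tiling.mem_edges, mvT_E]

theorem mvT_extreme {i : J} {v : V} (hv : v ∈ (T.P i).extremePoints ℝ) :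
    mv L g1 g2 hL h z v ∈ ((mvT T hL h z).P i).extremePoints ℝ := by
  rw [mem_extremePoints] at hv ⊢
  rw [mvT_P]
  refine ⟨(mem_image_mv hL h z).2 hv.1, ?_⟩
  rintro _ ⟨x, hx, rfl⟩ _ ⟨y, hy, rfl⟩ hxy
  have := hv.2 x hx y hy ((openSegment_mv hL h z).1 hxy)
  exact ⟨by rw [this.1], by rw [this.2]⟩

variable {T}

/-- Regular tiles are invariant. -/
theorem RegTile.move {ε c0 b : ℝ} {F : J → Fr} {i : J} (hR : RegTile L ε c0 b T F i) :
    RegTile L ε c0 b (mvT T hL h z) (fun i => (F i).rot g1 g2 h) i where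
  area := by
    rw [mvT_P, volume_mv]; exact hR.area
  inn v w hvw := by
    obtain ⟨j, hj⟩ := hR.inn _ _ ((mvT_E hL h z T).1 hvw)
    exact ⟨j, (mvT_E hL h z T).2 hj⟩
  sub := by
    rw [mvT_P, mvT_R, interior_mv]
    exact image_mono hR.sub
  ext v hv hvi := by
    rw [mvT_P] at hvi
    obtain ⟨x, hx, rfl⟩ := hvi
    exact mvT_extreme hL h z T (hR.ext x ((mvT_W T hL h z).1 hv) hx)
  sym := by
    obtain ⟨q, hq1, hq2, hq3⟩ := hR.sym
    obtain ⟨e, he, he2⟩ := lx_ly_rot hL h (F i)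
    refine ⟨fun k => mv L g1 g2 hL h z (q k), fun k l hkl => hq1 (mv_inj hL h z hkl), ?_, ?_⟩
    · intro p
      rw [mem_mvT_edges, hq2]
      constructor
      · rintro ⟨k, hk⟩
        refine ⟨k, ?_⟩
        have h1 : mvi L g1 g2 hL h z p.1 = q k := congrArg Prod.fst hk
        have h2 : mvi L g1 g2 hL h z p.2 = q (k + 1) := congrArg Prod.snd hk
        show p = (mv L g1 g2 hL h z (q k), mv L g1 g2 hL h z (q (k + 1)))
        rw [← h1, ← h2, mv_mvi, mv_mvi]
      · rintro ⟨k, hk⟩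
        refine ⟨k, ?_⟩
        rw [hk]
        simp only [mvi_mv]
    · intro k
      have h1 : mv L g1 g2 hL h z (q (k + 1)) - mv L g1 g2 hL h z (q k) +
          (mv L g1 g2 hL h z (q (k + 4)) - mv L g1 g2 hL h z (q (k + 3))) =
          C2305b.TL.rot L g1 g2 hL h ((q (k + 1) - q k) + (q (k + 4) - q (k + 3))) := by
        rw [mv_sub, mv_sub, ← map_add]
      have habs : |e| = 1 := by rcases he with rfl | rfl <;> norm_num
      rw [h1, (he2 _).1, (he2 _).2, abs_mul, abs_mul, habs, one_mul, one_mul]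
      exact hq3 k
  low := by
    intro α β hα1 hα2 hβ
    obtain ⟨e, he, he2⟩ := lx_ly_rot hL h (F i)
    have habs : |e| = 1 := by rcases he with rfl | rfl <;> norm_num
    obtain ⟨w, hw, hwx⟩ := hR.low (e * α) (e * β) (by rw [abs_mul, habs, one_mul]; exact hα1)
      (by rw [abs_mul, habs, one_mul]; exact hα2) (by rw [abs_mul, habs, one_mul]; exact hβ)
    refine ⟨mv L g1 g2 hL h z w, ?_, ?_⟩
    · rw [mvT_R]; exact (mem_image_mv hL h z).2 hw
    · intro x hx
      rw [mvT_P] at hx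
      obtain ⟨y, hy, rfl⟩ := hx
      rw [mv_sub, (he2 _).1, (he2 _).2]
      have := hwx y hy
      linarith

/-- The level is invariant. -/
theorem Lvl.move {μ ε c0 b : ℝ} {F : J → Fr} {Bad : Finset (J × J)}
    (hl : Lvl L μ ε c0 b T F Bad) :
    Lvl L μ ε c0 b (mvT T hL h z) (fun i => (F i).rot g1 g2 h) Bad := by
  intro i j v w hvw hij
  obtain ⟨h1, h2, h3⟩ := hl i j _ _ ((mvT_Tw T hL h z).1 hvw) hij
  refine ⟨?_, h2.move hL h z, h3.move hL h z⟩
  rw [mis_rot]; exact h1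

end

end

end C2305bG
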