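import Pool.Agent.W_c2305b_h73.Final
import Pool.Agent.W_c2305b_h89.Defs
import Pool.Agent.W_c2305b_h68.Shoe
import Pool.Agent.W_c2305b_h74.Order
import Pool.Agent.W_c2305b_h35.Area

/-!
# MP_c2305b_co: uniqueness of the maximal inscribed hexagon in natural terms
-/

open MeasureTheory Set Module
open scoped Pointwise

namespace C2305b.Nat73

open C2305b.Rig (Conv6 ar6 LeMax UniqHex edge cr)
open C2305b.Rig.O74
open C2305bH68.Ord (Corners)

/-- the fan triangles of a sextuple -/
def fan (q : Fin 6 → Pl) (i : Fin 4) : Set Pl :=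
  convexHull ℝ {q 0, q i.succ.castSucc, q i.succ.succ}

theorem fan_null {q : Fin 6 → Pl} (hq : Conv6 q) {i j : Fin 4} (hij : i < j) :
    volume (fan q i ∩ fan q j) = 0 := by
  set u := q i.succ.succ - q 0 with hu
  have hlt0 : ∀ k : Fin 5, (0 : Fin 6) < k.succ := fun k => Fin.succ_pos k
  have h1 : ∀ x ∈ fan q i, cr u (x - q 0) ≤ 0 := by
    have hsub : fan q i ⊆ {x | cr u (x - q 0) ≤ 0} := by
      refine convexHull_min ?_ ?_
      · intro x hx
        simp only [mem_insert_iff, mem_singleton_iff] at hx
        simp only [mem_setOf_eq]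
        rcases hx with rfl | rfl | rfl
        · rw [sub_self, cr_zero_right]
        · rw [cr_anti]
          have := hq 0 i.succ.castSucc i.succ.succ (by
            rw [Fin.lt_def]; simp) (by rw [Fin.lt_def]; simp)
          linarith
        · rw [hu, cr_self]
      · intro x hx y hy a b _ _ hab
        simp only [mem_setOf_eq] at hx hy ⊢
        have h2 : a • x + b • y - q 0 = a • (x - q 0) + b • (y - q 0) := by
          have : q 0 = (a + b) • q 0 := by rw [hab, one_smul]
          rw [smul_sub, smul_sub]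
          nth_rewrite 1 [this]
          rw [add_smul]; abel
        rw [h2, cr_add_right, cr_smul_right, cr_smul_right]
        have := mul_nonneg ‹0 ≤ a› (neg_nonneg.2 hx)
        have := mul_nonneg ‹0 ≤ b› (neg_nonneg.2 hy)
        linarith
    exact fun x hx => hsub hx
  have h2 : ∀ x ∈ fan q j, 0 ≤ cr u (x - q 0) := by
    have hge : ∀ k : Fin 6, i.succ.succ ≤ k → 0 ≤ cr u (q k - q 0) := by
      intro k hk
      rcases eq_or_lt_of_le hk with h | h
      · rw [← h, hu, cr_self]
      · exact hq 0 i.succ.succ k (by rw [Fin.lt_def]; simp) h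
    have hsub : fan q j ⊆ {x | 0 ≤ cr u (x - q 0)} := by
      refine convexHull_min ?_ ?_
      · intro x hx
        simp only [mem_insert_iff, mem_singleton_iff] at hx
        simp only [mem_setOf_eq]
        rw [Fin.lt_def] at hij
        rcases hx with rfl | rfl | rfl
        · rw [sub_self, cr_zero_right]
        · exact hge _ (by rw [Fin.le_def]; simp; omega)
        · exact hge _ (by rw [Fin.le_def]; simp; omega)
      · intro x hx y hy a b ha hb hab
        simp only [mem_setOf_eq] at hx hy ⊢
        have h2 : a • x + b • y - q 0 = a • (x - q 0) + b • (y - q 0) := by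
          have : q 0 = (a + b) • q 0 := by rw [hab, one_smul]
          rw [smul_sub, smul_sub]
          nth_rewrite 1 [this]
          rw [add_smul]; abel
        rw [h2, cr_add_right, cr_smul_right, cr_smul_right]
        have := mul_nonneg ha hx
        have := mul_nonneg hb hy
        linarith
    exact fun x hx => hsub hx
  by_cases hu0 : u = 0
  · -- the first triangle is degenerate
    refine measure_mono_null inter_subset_left ?_
    have h3 := C2305b.TL.volume_triangle (q 0) (q i.succ.castSucc) (q i.succ.succ)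
    rw [← hu, hu0, C2305b.TL.cr_zero_right, abs_zero, zero_div,
      ENNReal.toReal_eq_zero_iff] at h3
    exact h3.resolve_right (C2305b.TL.volume_triangle_ne_top _ _ _)
  · refine measure_mono_null ?_ (C2305bH68.Tri.null_line hu0 (q 0))
    rintro x ⟨hx1, hx2⟩
    exact le_antisymm (h1 x hx1) (h2 x hx2)

/-- the area of a weakly convex sextuple is at most the area of the hull -/
theorem ar6_le_volume {q : Fin 6 → Pl} (hq : Conv6 q) :
    ar6 q ≤ (volume (convexHull ℝ (range q))).toReal := by
  have hm : ∀ i, MeasurableSet (fan q i) := fun i =>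
    ((Set.toFinite _).isCompact_convexHull ℝ).isClosed.measurableSet
  have hpw : Pairwise (Function.onFun (AEDisjoint volume) (fan q)) := by
    intro i j hij
    rcases lt_or_gt_of_ne hij with h | h
    · exact fan_null hq h
    · have := fan_null hq h
      rw [inter_comm] at this
      exact this
  have h1 : volume (⋃ i, fan q i) = ∑' i, volume (fan q i) :=
    measure_iUnion₀ hpw fun i => (hm i).nullMeasurableSet
  have h2 : (⋃ i, fan q i) ⊆ convexHull ℝ (range q) := by
    refine iUnion_subset fun i => convexHull_mono ?_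
    intro x hx
    simp only [mem_insert_iff, mem_singleton_iff] at hx
    rcases hx with rfl | rfl | rfl <;> exact mem_range_self _
  have hfin : volume (convexHull ℝ (range q)) ≠ ⊤ :=
    ((Set.finite_range q).isCompact_convexHull ℝ).measure_lt_top.ne
  have h3 : (∑' i, volume (fan q i)).toReal ≤ (volume (convexHull ℝ (range q))).toReal := by
    rw [← h1]
    exact ENNReal.toReal_mono hfin (measure_mono h2)
  have hft : ∀ i ∈ (Finset.univ : Finset (Fin 4)), volume (fan q i) ≠ ⊤ :=
    fun i _ => C2305b.TL.volume_triangle_ne_top _ _ _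
  rw [tsum_fintype, ENNReal.toReal_sum hft] at h3
  have h4 : ∀ i : Fin 4, (volume (fan q i)).toReal =
      cr (q i.succ.castSucc - q 0) (q i.succ.succ - q 0) / 2 := by
    intro i
    unfold fan
    rw [C2305b.TL.volume_triangle]
    congr 1
    exact abs_of_nonneg (hq 0 i.succ.castSucc i.succ.succ (by
            rw [Fin.lt_def]; simp) (by rw [Fin.lt_def]; simp))
  simp only [h4] at h3
  rw [Fin.sum_univ_four] at h3
  rw [ar6_eq]
  refine le_trans (le_of_eq ?_) h3
  have e0 : (0 : Fin 4).succ.castSucc = (1 : Fin 6) := by decide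
  have e0' : (0 : Fin 4).succ.succ = (2 : Fin 6) := by decide
  have e1 : (1 : Fin 4).succ.castSucc = (2 : Fin 6) := by decide
  have e1' : (1 : Fin 4).succ.succ = (3 : Fin 6) := by decide
  have e2 : (2 : Fin 4).succ.castSucc = (3 : Fin 6) := by decide
  have e2' : (2 : Fin 4).succ.succ = (4 : Fin 6) := by decide
  have e3 : (3 : Fin 4).succ.castSucc = (4 : Fin 6) := by decide
  have e3' : (3 : Fin 4).succ.succ = (5 : Fin 6) := by decide
  rw [e0, e0', e1, e1', e2, e2', e3, e3']
  ring

section Uniq

variable {K0 : Set Pl} {H : Fin 6 → Pl} (hH : ∀ k, H k ∈ K0)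
  (hU : ∀ G : Fin 6 → Pl, (∀ k, G k ∈ K0) →
    volume (convexHull ℝ (range H)) ≤ volume (convexHull ℝ (range G)) → range G = range H)

include hU in
theorem le_max {G : Fin 6 → Pl} (hG : ∀ k, G k ∈ K0) :
    volume (convexHull ℝ (range G)) ≤ volume (convexHull ℝ (range H)) := by
  by_contra hcon
  push Not at hcon
  have h1 := hU G hG hcon.le
  rw [h1] at hcon
  exact lt_irrefl _ hcon

include hH hU in
theorem not_mem_hull (hint : (interior K0).Nonempty) (k : Fin 6) :
    H k ∉ convexHull ℝ (H '' {k}ᶜ) := by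
  intro hk
  -- a point of K0 outside the range
  have hinf : K0.Infinite := by
    intro hfin
    obtain ⟨x, hx⟩ := hint
    have h1 : (interior K0).Finite := hfin.subset interior_subset
    have h2 := isOpen_interior.measure_pos (volume : Measure Pl) ⟨x, hx⟩
    rw [h1.measure_zero] at h2
    exact lt_irrefl _ h2
  obtain ⟨p, hp, hpH⟩ := hinf.exists_notMem_finite (Set.finite_range H)
  have hG : ∀ j, Function.update H k p j ∈ K0 := by
    intro j
    by_cases hj : j = k
    · subst hj; rw [Function.update_self]; exact hp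
    · rw [Function.update_of_ne hj]; exact hH j
  have hsub : H '' {k}ᶜ ⊆ range (Function.update H k p) := by
    rintro _ ⟨j, hj, rfl⟩
    exact ⟨j, Function.update_of_ne hj _ _⟩
  have hle : convexHull ℝ (range H) ⊆ convexHull ℝ (range (Function.update H k p)) := by
    refine convexHull_min ?_ (convex_convexHull ℝ _)
    rintro _ ⟨j, rfl⟩
    by_cases hj : j = k
    · subst hj; exact convexHull_mono hsub hk
    · exact subset_convexHull ℝ _ (hsub ⟨j, hj, rfl⟩)
  have h3 := hU _ hG (measure_mono hle)
  apply hpH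
  rw [← h3]
  exact ⟨k, Function.update_self _ _ _⟩

include hH hU in
theorem injective (hint : (interior K0).Nonempty) : Function.Injective H := by
  intro i j hij
  by_contra hne
  apply not_mem_hull hH hU hint i
  rw [hij]
  exact subset_convexHull ℝ _ ⟨j, fun h => hne h.symm, rfl⟩

open Classical in
include hH hU in
theorem corners (hint : (interior K0).Nonempty) : Corners (Finset.univ.image H) := by
  intro p hp
  rw [Finset.mem_image] at hp
  obtain ⟨k, _, rfl⟩ := hp
  intro hcon
  apply not_mem_hull hH hU hint k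
  refine convexHull_mono ?_ hcon
  rintro x ⟨hx, hxk⟩
  rw [Finset.coe_image, Finset.coe_univ, image_univ] at hx
  obtain ⟨j, rfl⟩ := hx
  exact ⟨j, fun h => hxk (by rw [mem_singleton_iff.1 h]; rfl), rfl⟩

end Uniq

/-- cyclic order of three indices -/
def Pos3 (a b c : Fin 6) : Prop := (a < b ∧ b < c) ∨ (b < c ∧ c < a) ∨ (c < a ∧ a < b)

instance (a b c : Fin 6) : Decidable (Pos3 a b c) := by unfold Pos3; infer_instance

theorem pos3_or : ∀ a b c : Fin 6, a ≠ b → a ≠ c → b ≠ c → Pos3 a b c ∨ Pos3 a c b := by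
  decide

theorem pos3_sub : ∀ a b c : Fin 6, Pos3 a b c → b - a < c - a := by decide

theorem perm_rot (σ : Fin 6 → Fin 6) (hinj : Function.Injective σ)
    (h : ∀ i j k, i < j → j < k → Pos3 (σ i) (σ j) (σ k)) : ∃ m, ∀ k, σ k = k + m := by
  refine ⟨σ 0, fun k => ?_⟩
  set τ : Fin 6 → Fin 6 := fun k => σ k - σ 0 with hτ
  have hmono : StrictMono τ := by
    intro i j hij
    by_cases hi : i = 0
    · subst hi
      simp only [hτ, sub_self]
      rw [Fin.pos_iff_ne_zero]
      intro h0
      have := hinj (sub_eq_zero.1 h0)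
      exact hij.ne this.symm
    · exact pos3_sub _ _ _ (h 0 i j (Fin.pos_iff_ne_zero.2 hi) hij)
  have hid : ∀ k, τ k = k := by
    have h1 : ∀ n : ℕ, ∀ hn : n < 6, n ≤ (τ ⟨n, hn⟩ : ℕ) := by
      intro n
      induction n with
      | zero => intro _; exact Nat.zero_le _
      | succ n ih =>
        intro hn
        have h2 := ih (by omega)
        have h3 := hmono (show (⟨n, by omega⟩ : Fin 6) < ⟨n + 1, hn⟩ by
          rw [Fin.lt_def]; simp)
        rw [Fin.lt_def] at h3
        omega
    have h4 : ∀ n : ℕ, ∀ hn : n < 6, (τ ⟨5 - n, by omega⟩ : ℕ) ≤ 5 - n := by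
      intro n
      induction n with
      | zero => intro _; have := (τ ⟨5 - 0, by omega⟩).isLt; omega
      | succ n ih =>
        intro hn
        have h2 := ih (by omega)
        have h3 := hmono (show (⟨5 - (n + 1), by omega⟩ : Fin 6) < ⟨5 - n, by omega⟩ by
          rw [Fin.lt_def]; simp only; omega)
        rw [Fin.lt_def] at h3
        omega
    intro k
    apply Fin.ext
    have h5 := h1 k.val k.isLt
    have h6 := h4 (5 - k.val) (by omega)
    have h7 : (⟨5 - (5 - k.val), by omega⟩ : Fin 6) = k := by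
      apply Fin.ext; simp only; omega
    rw [h7] at h6
    have h8 : 5 - (5 - k.val) = k.val := by omega
    have h9 : (⟨k.val, k.isLt⟩ : Fin 6) = k := rfl
    rw [h9] at h5
    omega
  have := hid k
  rw [hτ] at this
  simp only at this
  rw [← sub_add_cancel (σ k) (σ 0), this]

/-- Two convex labellings of the same six corners differ by a shift. -/
theorem shift_of_range {p p' : Fin 6 → Pl} (hp : Conv6 p) (hp' : Conv6 p')
    (hinj : Function.Injective p)
    (hne : ∀ i j k, i ≠ j → i ≠ k → j ≠ k → cr (p j - p i) (p k - p i) ≠ 0)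
    (hr : range p' = range p) : ∃ m, ∀ k, p' k = p (k + m) := by
  have hσ : ∀ k, ∃ j, p j = p' k := fun k => by
    have : p' k ∈ range p := by rw [← hr]; exact mem_range_self k
    exact this
  choose σ hσ using hσ
  have hσinj : Function.Injective σ := by
    have hsurj : Function.Surjective σ := by
      intro j
      have : p j ∈ range p' := by rw [hr]; exact mem_range_self j
      obtain ⟨k, hk⟩ := this
      exact ⟨k, hinj (by rw [hσ, hk])⟩
    exact Finite.injective_iff_surjective.2 hsurj
  obtain ⟨m, hm⟩ := perm_rot σ hσinj (by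
    intro i j k hij hjk
    have hij' : σ i ≠ σ j := fun h => hij.ne (hσinj h)
    have hjk' : σ j ≠ σ k := fun h => hjk.ne (hσinj h)
    have hik' : σ i ≠ σ k := fun h => (hij.trans hjk).ne (hσinj h)
    rcases pos3_or (σ i) (σ j) (σ k) hij' hik' hjk' with h | h
    · exact h
    · exfalso
      have h1 := conv6_cyc hp h
      have h2 := hp' i j k hij hjk
      rw [← hσ i, ← hσ j, ← hσ k] at h2
      have h3 := hne (σ i) (σ j) (σ k) hij' hik' hjk'
      rw [tri_swap] at h1
      apply h3
      linarith)
  exact ⟨m, fun k => by rw [← hσ, hm]⟩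

theorem fa0 : ∀ k : Fin 6, k + 1 + 1 = k + 2 := by decide
theorem fa1 : ∀ k : Fin 6, k + 2 + 1 = k + 3 := by decide
theorem fb1 : ∀ k : Fin 6, 0 + 1 + k = k + 1 := by decide
theorem fb1' : ∀ k : Fin 6, 1 + k = k + 1 := by decide
theorem fb2 : ∀ k : Fin 6, 1 + 1 + k = k + 2 := by decide
theorem fb2' : ∀ k : Fin 6, 2 + k = k + 2 := by decide
theorem fb3 : ∀ k : Fin 6, 2 + 1 + k = k + 3 := by decide
theorem fb3' : ∀ k : Fin 6, 3 + k = k + 3 := by decide
theorem fb4 : ∀ k : Fin 6, 3 + 1 + k = k + 1 + 3 := by decide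
theorem fb4' : ∀ k : Fin 6, 4 + k = k + 1 + 3 := by decide
theorem fb5 : ∀ k : Fin 6, 4 + 1 + k = k + 2 + 3 := by decide
theorem fb5' : ∀ k : Fin 6, 5 + k = k + 2 + 3 := by decide
theorem fb6 : ∀ k : Fin 6, 5 + 1 + k = k := by decide
theorem fc1 : ∀ k : Fin 6, k + 2 ≠ k := by decide
theorem fc2 : ∀ k : Fin 6, k + 2 ≠ k + 1 := by decide

theorem eq_zero_of_neg {v : Pl} (h : v = -v) : v = 0 := by
  have h2 : (2 : ℝ) • v = 0 := by
    rw [two_smul]
    nth_rewrite 2 [h]
    exact add_neg_cancel v
  exact (smul_eq_zero.1 h2).resolve_left (by norm_num)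

theorem fin6_double : ∀ m : Fin 6, m + m = 0 → m = 0 ∨ m = 3 := by decide

theorem nce_calc {a b c : Pl} :
    cr ((c - b) - (b - a)) ((-a - c) - (c - b)) =
      4 * cr b c - (cr a b + cr b c + cr a c) := by
  unfold cr
  simp only [PiLp.sub_apply, PiLp.neg_apply]
  ring

/-- **Natural form of the generic class.** -/
theorem exists_uniqHex {K0 : Set Pl} (hsym : ∀ v ∈ K0, -v ∈ K0) (hint : (interior K0).Nonempty)
    {H : Fin 6 → Pl} (hH : ∀ k, H k ∈ K0)
    (hU : ∀ G : Fin 6 → Pl, (∀ k, G k ∈ K0) →
      volume (convexHull ℝ (range H)) ≤ volume (convexHull ℝ (range G)) → range G = range H)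
    (h8 : ∀ i j, 8 * volume (convexHull ℝ {0, H i, H j}) ≠ volume (convexHull ℝ (range H))) :
    ∃ p : Fin 6 → Pl, range p = range H ∧
      UniqHex K0 p (volume (convexHull ℝ (range H))).toReal := by
  classical
  have hinjH := injective hH hU hint
  have hcor := corners hH hU hint
  have hcard : (Finset.univ.image H).card = 6 := by
    rw [Finset.card_image_of_injective _ hinjH, Finset.card_univ, Fintype.card_fin]
  obtain ⟨q, -, hqinj, hqr, hq1, hq2, hq3⟩ := C2305bH68.Ord.exists_cyclic_six hcor hcard
    (p := H 0) (Finset.mem_image_of_mem _ (Finset.mem_univ _))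
  obtain ⟨p, hp⟩ : ∃ p : Fin 6 → Pl, p = q := ⟨q, rfl⟩
  have hcoe : ((Finset.univ.image H : Finset Pl) : Set Pl) = range H := by
    rw [Finset.coe_image, Finset.coe_univ, image_univ]
  have hpinj : Function.Injective p := by rw [hp]; exact hqinj
  have hpr : range p = range H := by rw [hp, ← hcoe]; exact hqr
  have hpmem : ∀ k, p k ∈ Finset.univ.image H := by
    intro k
    have : p k ∈ ((Finset.univ.image H : Finset Pl) : Set Pl) := by
      rw [hcoe, ← hpr]; exact mem_range_self k
    exact_mod_cast this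
  have hp2 : ∀ k l, l ≠ k → l ≠ k + 1 → 0 < cr (p (k + 1) - p k) (p l - p k) := by
    intro k l h1 h2
    have h3 := hq2 k (p l) (hpmem l) (by rw [← hp]; exact fun h => h1 (hpinj h))
      (by rw [← hp]; exact fun h => h2 (hpinj h))
    rw [← hp] at h3
    exact h3
  have hconv : Conv6 p := conv6_of_strict p hpinj hp2
  set t := (volume (convexHull ℝ (range H))).toReal with ht
  have hfin : ∀ G : Fin 6 → Pl, volume (convexHull ℝ (range G)) ≠ ⊤ := fun G =>
    ((Set.finite_range G).isCompact_convexHull ℝ).measure_lt_top.ne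
  have harea : ar6 p = t := by
    rw [ht, ← hcoe, hq3, ← hp]; rfl
  have hpK : ∀ k, p k ∈ K0 := by
    intro k
    have : p k ∈ range H := by rw [← hpr]; exact mem_range_self k
    obtain ⟨j, hj⟩ := this
    rw [← hj]; exact hH j
  have hle : LeMax K0 t := by
    intro q hq hqK
    refine (ar6_le_volume hq).trans ?_
    rw [ht]
    exact ENNReal.toReal_mono (hfin H) (le_max hU hqK)
  have hne : ∀ i j k, i ≠ j → i ≠ k → j ≠ k → cr (p j - p i) (p k - p i) ≠ 0 := by
    intro i j k hij hik hjk
    exact hcor.cr_ne (hpmem i) (hpmem j) (hpmem k) (fun h => hij (hpinj h))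
      (fun h => hik (hpinj h)) (fun h => hjk (hpinj h))
  have huniq : ∀ p' : Fin 6 → Pl, Conv6 p' → (∀ k, p' k ∈ K0) → ar6 p' = t →
      ∃ j, ∀ k, p' k = p (k + j) := by
    intro p' hc hK ha
    refine shift_of_range hconv hc hpinj hne ?_
    rw [hpr]
    apply hU p' hK
    rw [← ENNReal.toReal_le_toReal (hfin H) (hfin p')]
    have := ar6_le_volume hc
    rw [ha] at this
    exact this
  have hsym3 : ∀ k, p (k + 3) = - p k := by
    have hc : Conv6 (fun k => - p k) := by
      intro i j k hij hjk
      have := hconv i j k hij hjk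
      have h2 : cr (-p j - -p i) (-p k - -p i) = cr (p j - p i) (p k - p i) := by
        unfold cr; simp only [PiLp.sub_apply, PiLp.neg_apply]; ring
      simp only
      rw [h2]; exact this
    have ha : ar6 (fun k => - p k) = t := by
      rw [← harea]
      unfold ar6
      congr 1
      refine Finset.sum_congr rfl fun k _ => ?_
      unfold cr; simp only [PiLp.neg_apply]; ring
    obtain ⟨m, hm⟩ := huniq _ hc (fun k => hsym _ (hpK k)) ha
    have h2 : ∀ k, p k = p (k + m + m) := by
      intro k
      have h3 := hm k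
      have h4 := hm (k + m)
      rw [← h4, ← h3, neg_neg]
    have h5 : m + m = 0 := by
      have := hpinj (h2 0)
      rw [zero_add] at this
      exact this.symm
    rcases fin6_double m h5 with h6 | h6
    · exfalso
      subst h6
      have h7 : ∀ k, p k = 0 := by
        intro k
        have := hm k
        rw [add_zero] at this
        exact eq_zero_of_neg this.symm
      have h8 := hpinj ((h7 0).trans (h7 1).symm)
      exact absurd h8 (by decide)
    · intro k
      rw [← h6, ← hm k]
  have hstrict : ∀ k, 0 < cr (edge p k) (edge p (k + 1)) := by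
    intro k
    have h1 := hp2 k (k + 2) (fc1 k) (fc2 k)
    have h2 : k + 1 + 1 = k + 2 := fa0 k
    unfold edge
    rw [h2]
    have h3 : cr (p (k + 1) - p k) (p (k + 2) - p (k + 1)) =
        cr (p (k + 1) - p k) (p (k + 2) - p k) := by
      unfold cr; simp only [PiLp.sub_apply]; ring
    rw [h3]; exact h1
  refine ⟨p, hpr, hsym, hconv, hpK, harea, hle, huniq, hstrict, ?_⟩
  intro k h0
  -- expression of the area
  have hsum : ar6 p = cr (p k) (p (k + 1)) + cr (p (k + 1)) (p (k + 2)) +
      cr (p k) (p (k + 2)) := by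
    rw [← ar6_shift p k]
    unfold ar6
    rw [Fin.sum_univ_six]
    beta_reduce
    have e3 := hsym3 k
    have e4 := hsym3 (k + 1)
    have e5 := hsym3 (k + 2)
    have a0 : (0 : Fin 6) + k = k := zero_add k
    have a1 : (0 : Fin 6) + 1 + k = k + 1 := fb1 k
    have a1' : (1 : Fin 6) + k = k + 1 := fb1' k
    have a2 : (1 : Fin 6) + 1 + k = k + 2 := fb2 k
    have a2' : (2 : Fin 6) + k = k + 2 := fb2' k
    have a3 : (2 : Fin 6) + 1 + k = k + 3 := fb3 k
    have a3' : (3 : Fin 6) + k = k + 3 := fb3' k
    have a4 : (3 : Fin 6) + 1 + k = k + 1 + 3 := fb4 k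
    have a4' : (4 : Fin 6) + k = k + 1 + 3 := fb4' k
    have a5 : (4 : Fin 6) + 1 + k = k + 2 + 3 := fb5 k
    have a5' : (5 : Fin 6) + k = k + 2 + 3 := fb5' k
    have a6 : (5 : Fin 6) + 1 + k = k := fb6 k
    rw [a0, a1, a1', a2, a2', a3, a3', a4, a4', a5, a5', a6, e3, e4, e5]
    simp only [cr_neg_left, cr_neg_right]
    rw [cr_anti (p (k + 2)) (p k)]
    ring
  have hk2 : k + 1 + 1 = k + 2 := fa0 k
  have hk3 : k + 2 + 1 = k + 3 := fa1 k
  have hexp : cr (edge p (k + 1) - edge p k) (edge p (k + 2) - edge p (k + 1)) =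
      4 * cr (p (k + 1)) (p (k + 2)) - t := by
    rw [← harea, hsum, ← nce_calc]
    unfold edge
    rw [hk2, hk3, hsym3 k]
  rw [hexp] at h0
  obtain ⟨i, hi⟩ : p (k + 1) ∈ range H := by rw [← hpr]; exact mem_range_self _
  obtain ⟨j, hj⟩ : p (k + 2) ∈ range H := by rw [← hpr]; exact mem_range_self _
  apply h8 i j
  rw [hi, hj]
  have h9 : (volume (convexHull ℝ ({0, p (k + 1), p (k + 2)} : Set Pl))).toReal =
      |cr (p (k + 1)) (p (k + 2))| / 2 := by
    have := C2305b.TL.volume_triangle 0 (p (k + 1)) (p (k + 2))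
    rw [sub_zero, sub_zero] at this
    exact this
  have ht0 : 0 ≤ t := by rw [ht]; exact ENNReal.toReal_nonneg
  have h10 : |cr (p (k + 1)) (p (k + 2))| = t / 4 := by
    rw [show cr (p (k + 1)) (p (k + 2)) = t / 4 by linarith]
    exact abs_of_nonneg (by linarith)
  rw [← ENNReal.toReal_eq_toReal_iff' (by
    refine ENNReal.mul_ne_top (by norm_num) (C2305b.TL.volume_triangle_ne_top _ _ _)) (hfin H),
    ENNReal.toReal_mul, h9, h10]
  rw [← ht]
  norm_num
  ring

end C2305b.Nat73
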