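import Pool.Agent.W_c2305b_h73.Frames

/-!
# MP_c2305b_co: volumes and maximal hexagons under affine maps
-/

open MeasureTheory Set Module
open scoped Pointwise

namespace C2305b

/-- The linear map with a given matrix. -/
noncomputable def mat (A : Matrix (Fin 2) (Fin 2) ℝ) : Pl →ₗ[ℝ] Pl := Matrix.toEuclideanLin A

theorem mat_0 (A : Matrix (Fin 2) (Fin 2) ℝ) (p : Pl) :
    mat A p 0 = A 0 0 * p 0 + A 0 1 * p 1 := by
  simp [mat, Matrix.toEuclideanLin_apply, Matrix.mulVec, dotProduct, Fin.sum_univ_two]

theorem mat_1 (A : Matrix (Fin 2) (Fin 2) ℝ) (p : Pl) :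
    mat A p 1 = A 1 0 * p 0 + A 1 1 * p 1 := by
  simp [mat, Matrix.toEuclideanLin_apply, Matrix.mulVec, dotProduct, Fin.sum_univ_two]

theorem det_mat (A : Matrix (Fin 2) (Fin 2) ℝ) :
    LinearMap.det (mat A) = A 0 0 * A 1 1 - A 0 1 * A 1 0 := by
  rw [mat, Matrix.toEuclideanLin_eq_toLin, LinearMap.det_toLin, Matrix.det_fin_two]

/-- The matrix of `rot c s ∘ dil l ∘ rfx σ ∘ rot a b`. -/
noncomputable def frM (c s l σ a b : ℝ) : Matrix (Fin 2) (Fin 2) ℝ :=
  !![c * l * a - s * l⁻¹ * σ * b, -(c * l * b) - s * l⁻¹ * σ * a;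
     s * l * a + c * l⁻¹ * σ * b, -(s * l * b) + c * l⁻¹ * σ * a]

theorem frame_eq (c s l σ a b : ℝ) (p : Pl) :
    rot c s (dil l (rfx σ (rot a b p))) = mat (frM c s l σ a b) p := by
  apply ext2
  · rw [mat_0]; simp [frM]; ring
  · rw [mat_1]; simp [frM]; ring

theorem det_frM {c s l σ a b : ℝ} (h1 : c ^ 2 + s ^ 2 = 1) (h2 : a ^ 2 + b ^ 2 = 1)
    (hl : l ≠ 0) : LinearMap.det (mat (frM c s l σ a b)) = σ := by
  rw [det_mat]
  simp only [frM, Matrix.of_apply, Matrix.cons_val', Matrix.cons_val_zero, Matrix.cons_val_one,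
    Matrix.cons_val_fin_one]
  have : l * l⁻¹ = 1 := mul_inv_cancel₀ hl
  calc _ = (l * l⁻¹) * σ * (c ^ 2 + s ^ 2) * (a ^ 2 + b ^ 2) := by ring
    _ = σ := by rw [this, h1, h2]; ring

theorem volume_affine (T : Pl →ₗ[ℝ] Pl) (o : Pl) (S : Set Pl) :
    volume ((fun p => o + T p) '' S) = ENNReal.ofReal |LinearMap.det T| * volume S := by
  have : (fun p => o + T p) '' S = (fun x => o + x) '' (T '' S) := by
    rw [image_image]
  rw [this, image_add_left, measure_preimage_add, Measure.addHaar_image_linearMap]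

theorem hull_affine (T : Pl →ₗ[ℝ] Pl) (o : Pl) (q : Fin 6 → Pl) :
    convexHull ℝ (range fun k => o + T (q k)) =
      (fun p => o + T p) '' convexHull ℝ (range q) := by
  set f : Pl →ᵃ[ℝ] Pl := AffineMap.const ℝ Pl o + T.toAffineMap with hf
  have h1 : ∀ p, f p = o + T p := fun p => by simp [hf]
  have h2 : (fun p => o + T p) = f := by funext p; rw [h1]
  rw [h2, AffineMap.image_convexHull, ← range_comp]
  rfl

theorem le_t6 {K : Set Pl} {p : Fin 6 → Pl} (hp : ∀ k, p k ∈ K) :
    volume (convexHull ℝ (range p)) ≤ t6 K :=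
  le_iSup₂_of_le (f := fun (p : Fin 6 → Pl) (_ : ∀ k, p k ∈ K) =>
    volume (convexHull ℝ (range p))) p hp le_rfl

theorem t6_affine (T : Pl →ₗ[ℝ] Pl) (o : Pl) (K : Set Pl) :
    t6 ((fun p => o + T p) '' K) = ENNReal.ofReal |LinearMap.det T| * t6 K := by
  apply le_antisymm
  · refine iSup_le fun p => iSup_le fun hp => ?_
    choose q hq hqp using hp
    have : p = fun k => o + T (q k) := by
      funext k; exact (hqp k).symm
    rw [this, hull_affine, volume_affine]
    gcongr
    exact le_t6 hq
  · rw [t6, ENNReal.mul_iSup]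
    refine iSup_le fun q => ?_
    rw [ENNReal.mul_iSup]
    refine iSup_le fun hq => ?_
    rw [← volume_affine T o, ← hull_affine]
    exact le_t6 (fun k => mem_image_of_mem _ (hq k))

theorem t6_mono {K L : Set Pl} (h : K ⊆ L) : t6 K ≤ t6 L :=
  iSup_le fun _ => iSup_le fun hp => le_t6 (fun k => h (hp k))

theorem t6_le {K : Set Pl} (h : Convex ℝ K) : t6 K ≤ volume K :=
  iSup_le fun _ => iSup_le fun hp =>
    measure_mono (convexHull_min (range_subset_iff.mpr hp) h)

theorem t6_pos {K : Set Pl} (h : (interior K).Nonempty) : 0 < t6 K := by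
  obtain ⟨x, hx⟩ := h
  obtain ⟨r, hr, hball⟩ := Metric.isOpen_iff.mp isOpen_interior x hx
  set e0 : Pl := EuclideanSpace.single 0 1 with he0
  set e1 : Pl := EuclideanSpace.single 1 1 with he1
  have hn0 : ‖e0‖ = 1 := by simp [he0]
  have hn1 : ‖e1‖ = 1 := by simp [he1]
  have hr2 : |r / 2| = r / 2 := abs_of_pos (by positivity)
  have m1 : x + (r / 2) • e0 ∈ K := by
    apply interior_subset; apply hball
    rw [Metric.mem_ball, dist_eq_norm, add_sub_cancel_left, norm_smul, hn0, Real.norm_eq_abs, hr2]
    linarith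
  have m2 : x + (r / 2) • e1 ∈ K := by
    apply interior_subset; apply hball
    rw [Metric.mem_ball, dist_eq_norm, add_sub_cancel_left, norm_smul, hn1, Real.norm_eq_abs, hr2]
    linarith
  have m0 : x ∈ K := interior_subset hx
  set z : Fin 3 → Pl := ![x, x + (r / 2) • e0, x + (r / 2) • e1] with hz
  have hzK : ∀ i, z i ∈ K := by
    intro i; fin_cases i <;> simp [hz] <;> assumption
  set p : Fin 6 → Pl := fun k => z ⟨k.1 % 3, Nat.mod_lt _ (by norm_num)⟩ with hp
  have hpz : ∀ i : Fin 3, z i ∈ range p := by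
    intro i
    refine ⟨⟨i.1, by omega⟩, ?_⟩
    simp only [hp]
    congr 1
    apply Fin.ext
    simp only
    exact Nat.mod_eq_of_lt i.2
  have hpos : 0 < volume (convexHull ℝ (range p)) := by
    set U : Set Pl := {q | x 0 < q 0 ∧ x 1 < q 1 ∧ (q 0 - x 0) + (q 1 - x 1) < r / 2} with hU
    have hUo : IsOpen U := by
      have c0 : Continuous fun q : Pl => q 0 := by fun_prop
      have c1 : Continuous fun q : Pl => q 1 := by fun_prop
      exact (isOpen_lt continuous_const c0).inter ((isOpen_lt continuous_const c1).inter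
        (isOpen_lt ((c0.sub continuous_const).add (c1.sub continuous_const)) continuous_const))
    have hUn : U.Nonempty := by
      refine ⟨x + (r / 8) • e0 + (r / 8) • e1, ?_, ?_, ?_⟩
      · simp [he0, he1]; positivity
      · simp [he0, he1]; positivity
      · simp [he0, he1]; linarith
    have hsub : U ⊆ convexHull ℝ (range p) := by
      rintro q ⟨h0, h1, h2⟩
      set w : Fin 3 → ℝ := ![1 - (q 0 - x 0) / (r / 2) - (q 1 - x 1) / (r / 2),
        (q 0 - x 0) / (r / 2), (q 1 - x 1) / (r / 2)] with hw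
      have hr' : 0 < r / 2 := by positivity
      have hw0 : ∀ i ∈ Finset.univ, 0 ≤ w i := by
        intro i _
        fin_cases i
        · simp only [hw]
          have : (q 0 - x 0) / (r / 2) + (q 1 - x 1) / (r / 2) ≤ 1 := by
            rw [← add_div, div_le_one hr']; linarith
          simp only [Fin.zero_eta, Matrix.cons_val_zero]
          linarith
        · simp only [hw]
          exact div_nonneg (by linarith) hr'.le
        · simp only [hw]
          exact div_nonneg (by linarith) hr'.le
      have hw1 : ∑ i, w i = 1 := by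
        rw [Fin.sum_univ_three]
        simp only [hw, Matrix.cons_val_zero, Matrix.cons_val_one, Matrix.cons_val]
        ring
      have := (convex_convexHull ℝ (range p)).sum_mem (t := Finset.univ) hw0 hw1
        (fun i _ => subset_convexHull ℝ _ (hpz i))
      have hq : ∑ i, w i • z i = q := by
        apply ext2
        · simp only [hw, hz, Fin.sum_univ_three]
          simp [he0, he1]
          field_simp
          ring
        · simp only [hw, hz, Fin.sum_univ_three]
          simp [he0, he1]
          field_simp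
          ring
      rw [hq] at this
      exact this
    exact (hUo.measure_pos volume hUn).trans_le (measure_mono hsub)
  exact hpos.trans_le (le_t6 fun k => hzK _)

end C2305b
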