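import Mathlib

/-!
# MP_c2305b_co: common definitions

Hexagon bound for noncrossing coverings, frames `o + R(θ) D_l S V`, and the core statement about
partitions into convex cells.
-/

open MeasureTheory Set Module
open scoped Pointwise

namespace C2305b

/-- The plane. -/
abbrev Pl := EuclideanSpace ℝ (Fin 2)

/-- Noncrossing in the sense of the problem (an empty difference is allowed). -/
def Noncrossing (A B : Set Pl) : Prop := IsPreconnected (A \ B) ∧ IsPreconnected (B \ A)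

/-- Supremum of the areas of the convex hulls of six points of `K`. -/
noncomputable def t6 (K : Set Pl) : ENNReal :=
  ⨆ (p : Fin 6 → Pl) (_ : ∀ k, p k ∈ K), volume (convexHull ℝ (range p))

/-- The hexagon bound for all noncrossing coverings of convex domains by at least `N` congruent
copies of `K`. -/
def HexBound (K : Set Pl) (N : ℕ) : Prop :=
  ∀ D : Set Pl, Convex ℝ D → IsCompact D → (interior D).Nonempty →
  ∀ n : ℕ, N ≤ n → ∀ φ : Fin n → (Pl ≃ᵢ Pl),
    (∀ i j, i ≠ j → Noncrossing (φ i '' K) (φ j '' K)) → D ⊆ ⋃ i, φ i '' K →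
    volume D ≤ n * t6 K

/-- Rotation with cosine `c` and sine `s`. -/
noncomputable def rot (c s : ℝ) (p : Pl) : Pl := !₂[c * p 0 - s * p 1, s * p 0 + c * p 1]

/-- The stretching `diag (l, 1/l)`. -/
noncomputable def dil (l : ℝ) (p : Pl) : Pl := !₂[l * p 0, l⁻¹ * p 1]

/-- `diag (1, σ)`: the identity for `σ = 1`, the reflection for `σ = -1`. -/
noncomputable def rfx (σ : ℝ) (p : Pl) : Pl := !₂[p 0, σ * p 1]

/-- The body `o + R(c,s) D_l S_σ V(a,b) K`. -/
noncomputable def body (o : Pl) (c s l σ a b : ℝ) (K : Set Pl) : Set Pl :=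
  (fun p => o + rot c s (dil l (rfx σ (rot a b p)))) '' K

/-- The core statement: partitions of a convex domain into at least `N0` convex cells, each in a
body `o_i + R(θ_i) D_l S_i V K` with `K0 ⊆ K ⊆ (1 + ε) K0`. -/
def Core (K0 : Set Pl) : Prop :=
  ∃ ε > (0 : ℝ), ∃ N0 : ℕ, ∀ K : Set Pl, Convex ℝ K → IsCompact K → K0 ⊆ K → K ⊆ (1 + ε) • K0 →
  ∀ l a b : ℝ, 1 ≤ l → a ^ 2 + b ^ 2 = 1 →
  ∀ D : Set Pl, Convex ℝ D → IsCompact D → (interior D).Nonempty →
  ∀ (ι : Type) [Fintype ι] (C : ι → Set Pl) (f : ι → ι → Pl →L[ℝ] ℝ) (d : ι → ι → ℝ)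
    (o : ι → Pl) (c s σ : ι → ℝ),
    (∀ i j, i ≠ j → f i j ≠ 0 ∧ f j i = - f i j ∧ d j i = - d i j) →
    (∀ i, C i = {x | x ∈ D ∧ ∀ j, i ≠ j → f i j x ≤ d i j}) →
    (∀ i, (interior (C i)).Nonempty) → D = ⋃ i, C i →
    (∀ i, c i ^ 2 + s i ^ 2 = 1) → (∀ i, σ i = 1 ∨ σ i = -1) →
    (∀ i, C i ⊆ body (o i) (c i) (s i) l (σ i) a b K) →
    N0 ≤ Fintype.card ι → volume D ≤ Fintype.card ι * t6 K

/-- What is deduced from the core statement: an absolute threshold for all bodies which are, up to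
a linear map of any eccentricity, between `K0` and `(1 + ε) K0`. -/
def Threshold (K0 : Set Pl) : Prop :=
  ∃ ε > (0 : ℝ), ∃ N : ℕ, ∀ K : Set Pl, Convex ℝ K → IsCompact K →
    (∃ A : Pl ≃L[ℝ] Pl, ∃ v : Pl, K0 ⊆ (fun x => A x + v) '' K ∧
      (fun x => A x + v) '' K ⊆ (1 + ε) • K0) → HexBound K N

end C2305b
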