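import Pool.Agent.W_c2305b_h73.Top

/-!
# MP_c2305b_co: from the core statement to the final statements
-/

open MeasureTheory Set Module
open scoped Pointwise

namespace C2305b

/-- A maximal inscribed hexagon has area `t6`. -/
theorem t6_eq_of_max {K : Set Pl} {H : Fin 6 → Pl} (hH : ∀ k, H k ∈ K)
    (hmax : ∀ H' : Fin 6 → Pl, (∀ k, H' k ∈ K) →
      volume (convexHull ℝ (range H')) ≤ volume (convexHull ℝ (range H))) :
    t6 K = volume (convexHull ℝ (range H)) :=
  le_antisymm (iSup_le fun p => iSup_le fun hp => hmax p hp) (le_t6 hH)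

/-- The final statement for the neighbourhood of a body `K0`. -/
theorem final {K0 : Set Pl} (h : Threshold K0) :
    ∃ ε : ℝ, 0 < ε ∧ ∃ N : ℕ, ∀ K : Set Pl, Convex ℝ K → IsCompact K →
      (∃ (A : Pl ≃L[ℝ] Pl) (v : Pl), K0 ⊆ (fun x => A x + v) '' K ∧
        (fun x => A x + v) '' K ⊆ (1 + ε) • K0) →
      ∀ D : Set Pl, Convex ℝ D → IsCompact D → (interior D).Nonempty →
      ∀ n : ℕ, N ≤ n → ∀ φ : Fin n → (Pl ≃ᵢ Pl),
        (∀ i j, i ≠ j → IsPreconnected ((φ i '' K) \ (φ j '' K)) ∧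
          IsPreconnected ((φ j '' K) \ (φ i '' K))) →
        D ⊆ ⋃ i, φ i '' K →
      ∀ H : Fin 6 → Pl, (∀ k, H k ∈ K) →
        (∀ H' : Fin 6 → Pl, (∀ k, H' k ∈ K) →
          volume (convexHull ℝ (range H')) ≤ volume (convexHull ℝ (range H))) →
        volume D ≤ n * volume (convexHull ℝ (range H)) := by
  obtain ⟨ε, hε, N, h⟩ := h
  refine ⟨ε, hε, N, ?_⟩
  intro K hKc hKcomp hK D hDc hDcomp hDi n hn φ hnc hcov H hH hmax
  rw [← t6_eq_of_max hH hmax]
  exact h K hKc hKcomp hK D hDc hDcomp hDi n hn φ hnc hcov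

/-- The final statement for the neighbourhood of the disc (ellipses of any eccentricity). -/
theorem final_disc (h : Core (Metric.closedBall (0 : Pl) 1)) :
    ∃ ε : ℝ, 0 < ε ∧ ∃ N : ℕ, ∀ K : Set Pl, Convex ℝ K → IsCompact K →
      (∃ (A : Pl ≃L[ℝ] Pl) (v : Pl), Metric.closedBall 0 1 ⊆ (fun x => A x + v) '' K ∧
        (fun x => A x + v) '' K ⊆ Metric.closedBall 0 (1 + ε)) →
      ∀ D : Set Pl, Convex ℝ D → IsCompact D → (interior D).Nonempty →
      ∀ n : ℕ, N ≤ n → ∀ φ : Fin n → (Pl ≃ᵢ Pl),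
        (∀ i j, i ≠ j → IsPreconnected ((φ i '' K) \ (φ j '' K)) ∧
          IsPreconnected ((φ j '' K) \ (φ i '' K))) →
        D ⊆ ⋃ i, φ i '' K →
      ∀ H : Fin 6 → Pl, (∀ k, H k ∈ K) →
        (∀ H' : Fin 6 → Pl, (∀ k, H' k ∈ K) →
          volume (convexHull ℝ (range H')) ≤ volume (convexHull ℝ (range H))) →
        volume D ≤ n * volume (convexHull ℝ (range H)) := by
  have hint : (interior (Metric.closedBall (0 : Pl) 1)).Nonempty :=
    ⟨0, Metric.ball_subset_interior_closedBall (Metric.mem_ball_self one_pos)⟩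
  obtain ⟨ε, hε, N, h⟩ := final (top (isCompact_closedBall _ _) hint h)
  refine ⟨ε, hε, N, ?_⟩
  intro K hKc hKcomp ⟨A, v, h1, h2⟩
  refine h K hKc hKcomp ⟨A, v, h1, ?_⟩
  have : (1 + ε) • Metric.closedBall (0 : Pl) 1 = Metric.closedBall 0 (1 + ε) := by
    rw [smul_closedBall _ _ zero_le_one, smul_zero, Real.norm_eq_abs,
      abs_of_pos (by linarith), mul_one]
  rw [this]; exact h2

end C2305b
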