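import Pool.Agent.W_c2305b_h73.Defs

/-!
# MP_c2305b_co: isometries and linear maps of the plane in coordinates
-/

open MeasureTheory Set Module
open scoped Pointwise

namespace C2305b

theorem ext2 {p q : Pl} (h0 : p 0 = q 0) (h1 : p 1 = q 1) : p = q := by
  ext i; fin_cases i
  · exact h0
  · exact h1

@[simp] theorem rot_0 (c s : ℝ) (p : Pl) : rot c s p 0 = c * p 0 - s * p 1 := by simp [rot]
@[simp] theorem rot_1 (c s : ℝ) (p : Pl) : rot c s p 1 = s * p 0 + c * p 1 := by simp [rot]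
@[simp] theorem dil_0 (l : ℝ) (p : Pl) : dil l p 0 = l * p 0 := by simp [dil]
@[simp] theorem dil_1 (l : ℝ) (p : Pl) : dil l p 1 = l⁻¹ * p 1 := by simp [dil]
@[simp] theorem rfx_0 (σ : ℝ) (p : Pl) : rfx σ p 0 = p 0 := by simp [rfx]
@[simp] theorem rfx_1 (σ : ℝ) (p : Pl) : rfx σ p 1 = σ * p 1 := by simp [rfx]

/-- Normal form of an isometry of the plane. -/
theorem isometry_form (φ : Pl ≃ᵢ Pl) : ∃ (o : Pl) (c s σ : ℝ), c ^ 2 + s ^ 2 = 1 ∧
    (σ = 1 ∨ σ = -1) ∧ ∀ p, φ p = o + rot c s (rfx σ p) := by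
  set L := φ.toRealAffineIsometryEquiv with hL
  set Li := L.linearIsometryEquiv with hLi
  have hform : ∀ p, φ p = φ 0 + Li p := by
    intro p
    have h1 : L p = φ p := by rw [hL]; simp
    have h2 : L 0 = φ 0 := by rw [hL]; simp
    have h3 := L.map_vadd 0 p
    simp only [vadd_eq_add, add_zero] at h3
    rw [h1, h2] at h3
    rw [h3, add_comm]
  set e0 : Pl := EuclideanSpace.single 0 1 with he0
  set e1 : Pl := EuclideanSpace.single 1 1 with he1
  have hn0 : ‖Li e0‖ = 1 := by rw [Li.norm_map]; simp [he0]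
  have hn1 : ‖Li e1‖ = 1 := by rw [Li.norm_map]; simp [he1]
  have hin : inner ℝ (Li e0) (Li e1) = (0 : ℝ) := by
    rw [Li.inner_map_map, he0, he1, EuclideanSpace.inner_single_left]; simp
  set c := Li e0 0 with hc
  set s := Li e0 1 with hs
  set u := Li e1 0 with hu
  set v := Li e1 1 with hv
  have h1 : c ^ 2 + s ^ 2 = 1 := by
    have := EuclideanSpace.norm_sq_eq (Li e0)
    rw [hn0] at this
    simpa [Fin.sum_univ_two, hc, hs] using this.symm
  have h2 : u ^ 2 + v ^ 2 = 1 := by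
    have := EuclideanSpace.norm_sq_eq (Li e1)
    rw [hn1] at this
    simpa [Fin.sum_univ_two, hu, hv] using this.symm
  have h3 : c * u + s * v = 0 := by
    have := hin
    simp only [PiLp.inner_apply, Fin.sum_univ_two] at this
    simp only [RCLike.inner_apply, conj_trivial] at this
    nlinarith
  have hlin : ∀ p : Pl, Li p = p 0 • Li e0 + p 1 • Li e1 := by
    intro p
    have : p = p 0 • e0 + p 1 • e1 := by
      apply ext2 <;> simp [he0, he1]
    conv_lhs => rw [this]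
    rw [map_add, map_smul, map_smul]
  set σ := c * v - s * u with hσ
  have hσ2 : σ ^ 2 = 1 := by
    have : σ ^ 2 = (c ^ 2 + s ^ 2) * (u ^ 2 + v ^ 2) - (c * u + s * v) ^ 2 := by
      rw [hσ]; ring
    rw [this, h1, h2, h3]; ring
  have hσ' : σ = 1 ∨ σ = -1 := mul_self_eq_one_iff.mp (by rw [← sq]; exact hσ2)
  have hu' : u = - s * σ := by
    have : - s * σ = u * (s ^ 2 + c ^ 2) - c * (c * u + s * v) := by rw [hσ]; ring
    rw [this, h3]; rw [add_comm] at h1; rw [h1]; ring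
  have hv' : v = c * σ := by
    have : c * σ = v * (c ^ 2 + s ^ 2) - s * (c * u + s * v) := by rw [hσ]; ring
    rw [this, h3, h1]; ring
  refine ⟨φ 0, c, s, σ, h1, hσ', fun p => ?_⟩
  rw [hform, hlin]
  congr 1
  apply ext2
  · simp only [PiLp.add_apply, PiLp.smul_apply, smul_eq_mul, rot_0, rfx_0, rfx_1]
    rw [← hc, ← hu, hu']; ring
  · simp only [PiLp.add_apply, PiLp.smul_apply, smul_eq_mul, rot_1, rfx_0, rfx_1]
    rw [← hs, ← hv, hv']; ring

/-- Half angle: a rotation which diagonalises a quadratic form. -/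
theorem exists_diag (E F H : ℝ) : ∃ c s : ℝ, c ^ 2 + s ^ 2 = 1 ∧
    (H - E) * (c * s) + F * (c ^ 2 - s ^ 2) = 0 := by
  set z : ℂ := ⟨E - H, 2 * F⟩ with hz
  refine ⟨Real.cos (z.arg / 2), Real.sin (z.arg / 2), Real.cos_sq_add_sin_sq _, ?_⟩
  have h1 : ‖z‖ * Real.cos z.arg = E - H := by
    have := Complex.norm_mul_cos_arg z
    simpa [hz] using this
  have h2 : ‖z‖ * Real.sin z.arg = 2 * F := by
    have := Complex.norm_mul_sin_arg z
    simpa [hz] using this
  have h3 : Real.cos z.arg = Real.cos (z.arg / 2) ^ 2 - Real.sin (z.arg / 2) ^ 2 := by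
    conv_lhs => rw [show z.arg = 2 * (z.arg / 2) by ring]
    rw [Real.cos_two_mul, ← Real.cos_sq_add_sin_sq (z.arg / 2)]
    nlinarith [Real.cos_sq_add_sin_sq (z.arg / 2)]
  have h4 : Real.sin z.arg = 2 * Real.sin (z.arg / 2) * Real.cos (z.arg / 2) := by
    conv_lhs => rw [show z.arg = 2 * (z.arg / 2) by ring]
    rw [Real.sin_two_mul]
  set C := Real.cos (z.arg / 2)
  set S := Real.sin (z.arg / 2)
  rw [h3] at h1
  rw [h4] at h2
  have : F = ‖z‖ * S * C := by linarith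
  have h5 : H - E = - (‖z‖ * (C ^ 2 - S ^ 2)) := by linarith
  rw [h5, this]; ring

/-- Singular value decomposition in the plane. -/
theorem svd (M : Pl ≃L[ℝ] Pl) : ∃ (c s σ μ l a b : ℝ), c ^ 2 + s ^ 2 = 1 ∧
    (σ = 1 ∨ σ = -1) ∧ 0 < μ ∧ 1 ≤ l ∧ a ^ 2 + b ^ 2 = 1 ∧
    ∀ p, M p = μ • rot c s (dil l (rfx σ (rot a b p))) := by
  set e0 : Pl := EuclideanSpace.single 0 1 with he0
  set e1 : Pl := EuclideanSpace.single 1 1 with he1
  set x := M e0 with hx
  set y := M e1 with hy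
  have hlin : ∀ p : Pl, M p = p 0 • x + p 1 • y := by
    intro p
    have : p = p 0 • e0 + p 1 • e1 := by
      apply ext2 <;> simp [he0, he1]
    conv_lhs => rw [this]
    rw [map_add, map_smul, map_smul]
  have hM0 : ∀ p, (M p) 0 = p 0 * x 0 + p 1 * y 0 := by
    intro p; rw [hlin]; simp
  have hM1 : ∀ p, (M p) 1 = p 0 * x 1 + p 1 * y 1 := by
    intro p; rw [hlin]; simp
  -- the determinant is not zero
  have hdet : x 0 * y 1 - x 1 * y 0 ≠ 0 := by
    intro h
    by_cases hy0 : y = 0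
    · have : e1 = 0 := by
        have := M.injective (a₁ := e1) (a₂ := 0) (by rw [← hy, hy0]; simp)
        exact this
      have h1 : e1 1 = 0 := by rw [this]; rfl
      simp [he1] at h1
    · have hz : M (!₂[y 0, -(x 0)] : Pl) = 0 := by
        apply ext2
        · rw [hM0]; simp; ring
        · rw [hM1]; simp; linarith
      have hz' : M (!₂[y 1, -(x 1)] : Pl) = 0 := by
        apply ext2
        · rw [hM0]; simp; linarith
        · rw [hM1]; simp; ring
      have h1 := M.injective (hz.trans (map_zero M).symm)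
      have h2 := M.injective (hz'.trans (map_zero M).symm)
      apply hy0
      apply ext2
      · have : (!₂[y 0, -(x 0)] : Pl) 0 = 0 := by rw [h1]; rfl
        simpa using this
      · have : (!₂[y 1, -(x 1)] : Pl) 0 = 0 := by rw [h2]; rfl
        simpa using this
  -- first version without ordering
  have key : ∃ c s : ℝ, c ^ 2 + s ^ 2 = 1 ∧
      (c * x 0 + s * y 0) * (-s * x 0 + c * y 0) + (c * x 1 + s * y 1) * (-s * x 1 + c * y 1) = 0 ∧
      (-s * x 0 + c * y 0) ^ 2 + (-s * x 1 + c * y 1) ^ 2 ≤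
        (c * x 0 + s * y 0) ^ 2 + (c * x 1 + s * y 1) ^ 2 := by
    obtain ⟨c, s, h1, h2⟩ := exists_diag (x 0 ^ 2 + x 1 ^ 2) (x 0 * y 0 + x 1 * y 1)
      (y 0 ^ 2 + y 1 ^ 2)
    have h3 : (c * x 0 + s * y 0) * (-s * x 0 + c * y 0) +
        (c * x 1 + s * y 1) * (-s * x 1 + c * y 1) = 0 := by
      rw [← h2]; ring
    rcases le_total ((-s * x 0 + c * y 0) ^ 2 + (-s * x 1 + c * y 1) ^ 2)
      ((c * x 0 + s * y 0) ^ 2 + (c * x 1 + s * y 1) ^ 2) with h | h
    · exact ⟨c, s, h1, h3, h⟩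
    · refine ⟨-s, c, by nlinarith, by nlinarith, ?_⟩
      nlinarith
  obtain ⟨a, b, hab, horth, hle⟩ := key
  set X0 := a * x 0 + b * y 0 with hX0
  set X1 := a * x 1 + b * y 1 with hX1
  set Y0 := -b * x 0 + a * y 0 with hY0
  set Y1 := -b * x 1 + a * y 1 with hY1
  have hdet' : X0 * Y1 - X1 * Y0 ≠ 0 := by
    have : X0 * Y1 - X1 * Y0 = (a ^ 2 + b ^ 2) * (x 0 * y 1 - x 1 * y 0) := by
      rw [hX0, hX1, hY0, hY1]; ring
    rw [this, hab, one_mul]; exact hdet
  have hXpos : 0 < X0 ^ 2 + X1 ^ 2 := by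
    rcases lt_or_eq_of_le (by positivity : (0:ℝ) ≤ X0 ^ 2 + X1 ^ 2) with h | h
    · exact h
    · exfalso
      have h0 : X0 = 0 := by nlinarith [sq_nonneg X0, sq_nonneg X1]
      have h1 : X1 = 0 := by nlinarith [sq_nonneg X0, sq_nonneg X1]
      apply hdet'; rw [h0, h1]; ring
  have hYpos : 0 < Y0 ^ 2 + Y1 ^ 2 := by
    rcases lt_or_eq_of_le (by positivity : (0:ℝ) ≤ Y0 ^ 2 + Y1 ^ 2) with h | h
    · exact h
    · exfalso
      have h0 : Y0 = 0 := by nlinarith [sq_nonneg Y0, sq_nonneg Y1]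
      have h1 : Y1 = 0 := by nlinarith [sq_nonneg Y0, sq_nonneg Y1]
      apply hdet'; rw [h0, h1]; ring
  set A := Real.sqrt (X0 ^ 2 + X1 ^ 2) with hA
  set B := Real.sqrt (Y0 ^ 2 + Y1 ^ 2) with hB
  have hApos : 0 < A := Real.sqrt_pos.mpr hXpos
  have hBpos : 0 < B := Real.sqrt_pos.mpr hYpos
  have hA2 : A ^ 2 = X0 ^ 2 + X1 ^ 2 := Real.sq_sqrt hXpos.le
  have hB2 : B ^ 2 = Y0 ^ 2 + Y1 ^ 2 := Real.sq_sqrt hYpos.le
  have hBA : B ≤ A := Real.sqrt_le_sqrt hle
  set σ := (X0 * Y1 - X1 * Y0) / (A * B) with hσ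
  have hσ2 : σ ^ 2 = 1 := by
    rw [hσ, div_pow, div_eq_one_iff_eq (by positivity)]
    have : (A * B) ^ 2 = (X0 ^ 2 + X1 ^ 2) * (Y0 ^ 2 + Y1 ^ 2) := by
      rw [mul_pow, hA2, hB2]
    rw [this]
    nlinarith
  have hσ' : σ = 1 ∨ σ = -1 := mul_self_eq_one_iff.mp (by rw [← sq]; exact hσ2)
  have hAB : A * B * σ = X0 * Y1 - X1 * Y0 := by
    rw [hσ]; field_simp
  have hs : ∀ t : ℝ, Real.sqrt (A * B) ^ 2 = A * B := fun _ => Real.sq_sqrt (by positivity)
  have hl1 : Real.sqrt (A * B) * Real.sqrt (A / B) = A := by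
    rw [← Real.sqrt_mul (by positivity)]
    rw [show A * B * (A / B) = A ^ 2 by field_simp]
    exact Real.sqrt_sq hApos.le
  have hl2 : Real.sqrt (A * B) * (Real.sqrt (A / B))⁻¹ = B := by
    rw [← Real.sqrt_inv, ← Real.sqrt_mul (by positivity)]
    rw [show A * B * (A / B)⁻¹ = B ^ 2 by field_simp]
    exact Real.sqrt_sq hBpos.le
  have hY0' : Y0 = - (X1 / A) * (σ * B) := by
    have h1 : A ^ 2 * Y0 = - X1 * (A * B * σ) := by
      rw [hAB, hA2]
      linear_combination X0 * horth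
    field_simp
    have : A * (A * Y0 + X1 * σ * B) = 0 := by
      nlinarith
    rcases mul_eq_zero.mp this with h | h
    · exact absurd h hApos.ne'
    · linarith
  have hY1' : Y1 = (X0 / A) * (σ * B) := by
    have h1 : A ^ 2 * Y1 = X0 * (A * B * σ) := by
      rw [hAB, hA2]
      linear_combination X1 * horth
    field_simp
    have : A * (A * Y1 - X0 * σ * B) = 0 := by
      nlinarith
    rcases mul_eq_zero.mp this with h | h
    · exact absurd h hApos.ne'
    · linarith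
  refine ⟨X0 / A, X1 / A, σ, Real.sqrt (A * B), Real.sqrt (A / B), a, -b, ?_, hσ',
    by positivity, ?_, by nlinarith, fun p => ?_⟩
  · rw [div_pow, div_pow, ← add_div, ← hA2, div_self (by positivity)]
  · rw [Real.one_le_sqrt, one_le_div hBpos]; exact hBA
  have hp0 : p 0 = a * (a * p 0 + b * p 1) - b * (-b * p 0 + a * p 1) := by
    linear_combination (-(p 0)) * hab
  have hp1 : p 1 = b * (a * p 0 + b * p 1) + a * (-b * p 0 + a * p 1) := by
    linear_combination (-(p 1)) * hab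
  set P := a * p 0 + b * p 1 with hP
  set Q := -b * p 0 + a * p 1 with hQ
  have hm0 : (M p) 0 = P * X0 + Q * Y0 := by
    rw [hM0, hX0, hY0]
    nth_rewrite 1 [hp0]; nth_rewrite 1 [hp1]; ring
  have hm1 : (M p) 1 = P * X1 + Q * Y1 := by
    rw [hM1, hX1, hY1]
    nth_rewrite 1 [hp0]; nth_rewrite 1 [hp1]; ring
  apply ext2
  · rw [hm0, hY0']
    simp only [PiLp.smul_apply, smul_eq_mul, rot_0, dil_0, dil_1, rfx_0, rfx_1, rot_1]
    have e1 : a * p 0 - -b * p 1 = P := by rw [hP]; ring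
    have e2 : -b * p 0 + a * p 1 = Q := hQ.symm
    rw [e1, e2]
    calc P * X0 + Q * (-(X1 / A) * (σ * B))
        = (X0 / A) * P * A - (X1 / A) * (σ * Q) * B := by field_simp; ring
      _ = (X0 / A) * P * (Real.sqrt (A * B) * Real.sqrt (A / B)) -
          (X1 / A) * (σ * Q) * (Real.sqrt (A * B) * (Real.sqrt (A / B))⁻¹) := by
            rw [hl1, hl2]
      _ = _ := by ring
  · rw [hm1, hY1']
    simp only [PiLp.smul_apply, smul_eq_mul, rot_0, dil_0, dil_1, rfx_0, rfx_1, rot_1]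
    have e1 : a * p 0 - -b * p 1 = P := by rw [hP]; ring
    have e2 : -b * p 0 + a * p 1 = Q := hQ.symm
    rw [e1, e2]
    calc P * X1 + Q * (X0 / A * (σ * B))
        = (X1 / A) * P * A + (X0 / A) * (σ * Q) * B := by field_simp
      _ = (X1 / A) * P * (Real.sqrt (A * B) * Real.sqrt (A / B)) +
          (X0 / A) * (σ * Q) * (Real.sqrt (A * B) * (Real.sqrt (A / B))⁻¹) := by
            rw [hl1, hl2]
      _ = _ := by ring

end C2305b
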