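import Pool.Agent.W82_c2305b.CoreG
import Pool.Agent.W_c2305b_h19.PartBG
import Pool.Agent.W_c2305b_h35.JumpG
import Pool.Agent.W_c2305b_h52.C1c
import Pool.Agent.W_c2305b_h73.Assemble

/-!
# The threshold for all bodies with a strict gap and central symmetry of the maximal hexagons
-/

open MeasureTheory Set Module
open scoped Pointwise

namespace C2305b

open C2305b.Rig (LeMax Sym6)

/-- The core statement for all symmetric bodies with a gap whose maximal hexagons are all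
centrally symmetric. -/
theorem core_of_gapSym {K0 : Set Pl} (hconv : Convex ℝ K0) (hcomp : IsCompact K0)
    (hsym : ∀ v ∈ K0, -v ∈ K0) {T6 τ g : ℝ} (hT60 : 0 < T6)
    (hT6 : ENNReal.ofReal T6 ≤ t6 K0) (hG : W82.Gap K0 T6 τ g) (hle : LeMax K0 T6)
    (hs : Sym6 K0 T6) : Core K0 :=
  W82.core_of_partBG hconv hcomp hsym hT60 hT6 hG hle (C2305bH52.C1.strictMax_of_gap hG) hs
    fun R τ G a μ c0 m0 hR hτ hG ha hμ hc0 hc01 hm0 hm01 =>
      C2305bG.partBG_of_jump hR hτ hG ha hμ.le hc0 hc01 fun κ3 hκ3 => by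
        obtain ⟨κ, h1, h2, h3⟩ := C2305bG.jump_leG R μ c0 m0 a hR hμ.le hc0 hc01 hm0 hm01 ha κ3 hκ3
        refine ⟨κ, h1, h2, fun c1 hc1 hc11 ω hω => ?_⟩
        obtain ⟨ε, hε, Cb, hCb, C4, hC4, θ, hθ, hθ1, h4⟩ := h3 c1 hc1 hc11 ω hω
        exact ⟨ε, hε, Cb, hCb, C4, hC4, θ, hθ, hθ1, h4⟩

end C2305b
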