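import Pool.Agent.W_c2305b_h73.Stmt2
import Pool.Agent.W_c2305b_h73.GapSym
import Pool.Agent.W_c2305b_h52.C1e

/-!
# Thresholds for regular bodies
-/

open MeasureTheory Set Module TopologicalSpace Metric
open scoped Pointwise

namespace C2305b

/-- The threshold for regular bodies with centre `0`. -/
theorem threshold_of_regular {K0 : Set Pl} (hconv : Convex ℝ K0) (hcomp : IsCompact K0)
    (hint : (interior K0).Nonempty) (hsym : ∀ v ∈ K0, -v ∈ K0) (hR : Regular K0) :
    Threshold K0 := by
  have key : C2305bH52.Dow.tm 5 K0 + C2305bH52.Dow.tm 7 K0 < 2 * C2305bH52.Dow.tm 6 K0 ∧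
      C2305bH52.C1.SymHex K0 := by
    rcases hR with h | h | h
    · exact h
    · exact C2305bH52.C1.good_of_C1 hsym hcomp hconv hint h
    · obtain ⟨H, hH, hU⟩ := h
      exact C2305bH52.C1.good_of_unique hsym hcomp hconv hint hH hU
  obtain ⟨⟨τ, g, hG⟩, hS, hle⟩ := C2305bH52.C1.data_of_good hsym hcomp hconv hint key
  refine top hcomp hint (core_of_gapSym hconv hcomp hsym
    (C2305bH52.Dow.sm_pos hsym hcomp hconv hint) ?_ hG hle hS)
  rw [C2305bH52.Dow.t6_eq hsym hcomp hconv hint]

end C2305b
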