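import Pool.Agent.W_c2305b_h73.Regular

/-!
# Translations, smooth neighbours and the exceptional set
-/

open MeasureTheory Set Module TopologicalSpace Metric
open scoped Pointwise

namespace C2305b

/-! ### Translations -/

section trans

variable (z : Pl)

theorem hull_sub (S : Set Pl) :
    convexHull ℝ ((fun x => x - z) '' S) = (fun x => x - z) '' convexHull ℝ S := by
  have h := (AffineEquiv.constVAdd ℝ Pl (-z)).toAffineMap.image_convexHull S
  have e : ∀ T : Set Pl, (AffineEquiv.constVAdd ℝ Pl (-z)).toAffineMap '' T =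
      (fun x => x - z) '' T := by
    intro T
    refine Set.image_congr fun x _ => ?_
    simp [sub_eq_neg_add]
  rw [e, e] at h
  exact h.symm

theorem volume_sub (S : Set Pl) : volume ((fun x => x - z) '' S) = volume S := by
  have e : (fun x => x - z) '' S = (-z) +ᵥ S := by
    rw [← Set.image_vadd]
    refine Set.image_congr fun x _ => ?_
    simp [sub_eq_neg_add]
  rw [e, measure_vadd]

theorem range_sub {ι : Type} (p : ι → Pl) :
    range (fun k => p k - z) = (fun x => x - z) '' range p := by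
  rw [← Set.range_comp]; rfl

theorem volume_range_sub {ι : Type} (p : ι → Pl) :
    volume (convexHull ℝ (range fun k => p k - z)) = volume (convexHull ℝ (range p)) := by
  rw [range_sub, hull_sub, volume_sub]

theorem tmax_sub_le (m : ℕ) (K : Set Pl) : tmax m K ≤ tmax m ((fun x => x - z) '' K) := by
  refine iSup_le fun p => iSup_le fun hp => ?_
  rw [← volume_range_sub z p]
  exact le_iSup_of_le (fun k => p k - z) (le_iSup_of_le (fun k => ⟨p k, hp k, rfl⟩) le_rfl)

theorem sub_sub_image (K : Set Pl) : (fun x => x - (-z)) '' ((fun x => x - z) '' K) = K := by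
  rw [Set.image_image]
  simp

theorem tmax_sub (m : ℕ) (K : Set Pl) : tmax m ((fun x => x - z) '' K) = tmax m K := by
  refine le_antisymm ?_ (tmax_sub_le z m K)
  have h := tmax_sub_le (-z) m ((fun x => x - z) '' K)
  rwa [sub_sub_image] at h

theorem mem_sub_image {K : Set Pl} {x : Pl} : x ∈ (fun x => x - z) '' K ↔ x + z ∈ K := by
  constructor
  · rintro ⟨y, hy, rfl⟩
    simpa using hy
  · intro h
    exact ⟨x + z, h, by simp⟩

theorem Regular.sub {K : Set Pl} (h : Regular K) : Regular ((fun x => x - z) '' K) := by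
  rcases h with ⟨h1, h2⟩ | h | h
  · refine Or.inl ⟨?_, ?_⟩
    · unfold StrictGap
      rw [tmax_sub, tmax_sub, tmax_sub]; exact h1
    · intro p hp hv
      rw [tmax_sub] at hv
      have hp' : ∀ k, p k + z ∈ K := fun k => (mem_sub_image z).1 (hp k)
      have e : p = fun k => (p k + z) - z := by funext k; simp
      rw [e, volume_range_sub z] at hv
      obtain ⟨w, hw⟩ := h2 _ hp' hv
      refine ⟨w - z, fun x hx => ?_⟩
      rw [e, range_sub, hull_sub, mem_sub_image] at hx ⊢
      have h3 := hw _ hx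
      have e2 : (2 : ℝ) • (w - z) - x + z = (2 : ℝ) • w - (x + z) := by module
      rw [e2]; exact h3
  · refine Or.inr (Or.inl ?_)
    intro x hx f g hf hg h1 h2
    rw [mem_sub_image] at hx
    refine h _ hx f g hf hg (fun y hy => ?_) (fun y hy => ?_)
    · have h3 := h1 (y - z) ⟨y, hy, rfl⟩
      rw [map_sub] at h3
      rw [map_add]
      linarith
    · have h3 := h2 (y - z) ⟨y, hy, rfl⟩
      rw [map_sub] at h3
      rw [map_add]
      linarith
  · refine Or.inr (Or.inr ?_)
    obtain ⟨H, hH, hU⟩ := h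
    refine ⟨fun k => H k - z, fun k => ⟨H k, hH k, rfl⟩, fun G hG hv => ?_⟩
    have hG' : ∀ k, G k + z ∈ K := fun k => (mem_sub_image z).1 (hG k)
    have e : G = fun k => (G k + z) - z := by funext k; simp
    rw [e, volume_range_sub z, volume_range_sub z] at hv
    have h3 := hU _ hG' hv
    rw [e, range_sub, range_sub, h3]

end trans

/-! ### Smooth neighbours -/

theorem riesz_max {f : Pl →L[ℝ] ℝ} (hf : f ≠ 0) {ε : ℝ} (hε : 0 < ε) {b : Pl}
    (hb : b ∈ closedBall (0 : Pl) ε) (h : ∀ y ∈ closedBall (0 : Pl) ε, f y ≤ f b) :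
    ∃ c : ℝ, 0 < c ∧ f = c • innerSL ℝ b := by
  set w := (InnerProductSpace.toDual ℝ Pl).symm f with hw
  have hfw : ∀ y, f y = inner ℝ w y := by
    intro y
    rw [hw, InnerProductSpace.toDual_symm_apply]
  have hw0 : w ≠ 0 := by
    rw [hw]
    simpa using hf
  have hwn : 0 < ‖w‖ := norm_pos_iff.mpr hw0
  rw [mem_closedBall_zero_iff] at hb
  have h1 := h ((ε / ‖w‖) • w) (by
    rw [mem_closedBall_zero_iff, norm_smul, Real.norm_eq_abs, abs_of_pos (by positivity)]
    rw [div_mul_cancel₀ _ hwn.ne'])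
  rw [hfw, hfw, inner_smul_right, real_inner_self_eq_norm_sq] at h1
  have h2 : ε / ‖w‖ * ‖w‖ ^ 2 = ‖w‖ * ε := by field_simp
  rw [h2] at h1
  have h3 : inner ℝ w b ≤ ‖w‖ * ‖b‖ := real_inner_le_norm w b
  have h4 : ‖w‖ * ‖b‖ ≤ ‖w‖ * ε := mul_le_mul_of_nonneg_left hb hwn.le
  have h5 : inner ℝ w b = ‖w‖ * ‖b‖ := by linarith
  have h6 : ‖b‖ = ε := by
    have : ‖w‖ * ‖b‖ = ‖w‖ * ε := by linarith
    exact mul_left_cancel₀ hwn.ne' this
  have h7 := inner_eq_norm_mul_iff_real.1 h5
  rw [h6] at h7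
  refine ⟨‖w‖ / ε, by positivity, ?_⟩
  ext y
  rw [hfw]
  have h8 : w = (‖w‖ / ε) • b := by
    have : ε⁻¹ • (ε • w) = ε⁻¹ • (‖w‖ • b) := by rw [h7]
    rw [smul_smul, inv_mul_cancel₀ hε.ne', one_smul, smul_smul] at this
    rw [this]; congr 1; rw [norm_smul, norm_mul, norm_inv, norm_norm, h6, Real.norm_of_nonneg hε.le]
    field_simp
  conv_lhs => rw [h8]
  rw [inner_smul_left]
  simp

theorem smooth_cthickening {K : Set Pl} (hK : IsCompact K) {ε : ℝ} (hε : 0 < ε) :
    SmoothBody (cthickening ε K) := by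
  rw [← hK.add_closedBall_zero hε.le]
  intro x hx f g hf hg h1 h2
  obtain ⟨k, hk, b, hb, rfl⟩ := hx
  obtain ⟨c, hc, hfc⟩ := riesz_max hf hε hb (fun y hy => by
    have := h1 (k + y) ⟨k, hk, y, hy, rfl⟩
    rw [map_add, map_add] at this
    linarith)
  obtain ⟨c', hc', hgc⟩ := riesz_max hg hε hb (fun y hy => by
    have := h2 (k + y) ⟨k, hk, y, hy, rfl⟩
    rw [map_add, map_add] at this
    linarith)
  refine ⟨c' / c, by positivity, ?_⟩
  rw [hfc, hgc, smul_smul, div_mul_cancel₀ _ hc.ne']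

theorem SymDomain.cthickening {K : Set Pl} (hK : SymDomain K) {ε : ℝ} (hε : 0 < ε) :
    SymDomain (cthickening ε K) := by
  obtain ⟨⟨h1, h2, h3⟩, z, hz⟩ := hK
  refine ⟨⟨?_, ?_, ?_⟩, z, ?_⟩
  · exact h1.cthickening ε
  · exact h2.cthickening
  · exact h3.mono (interior_mono (self_subset_cthickening K))
  · rw [← h2.add_closedBall_zero hε.le]
    rintro _ ⟨k, hk, b, hb, rfl⟩
    refine ⟨(2 : ℝ) • z - k, hz k hk, -b, ?_, ?_⟩
    · rw [mem_closedBall_zero_iff] at hb ⊢
      rwa [norm_neg]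
    · simp only
      abel

/-! ### The exceptional set -/

theorem SymDomain.sub {K : Set Pl} (hK : ConvexDomain K) {z : Pl}
    (hz : ∀ x ∈ K, (2 : ℝ) • z - x ∈ K) :
    Convex ℝ ((fun x => x - z) '' K) ∧ IsCompact ((fun x => x - z) '' K) ∧
      (interior ((fun x => x - z) '' K)).Nonempty ∧
      ∀ v ∈ (fun x => x - z) '' K, -v ∈ (fun x => x - z) '' K := by
  obtain ⟨h1, h2, h3⟩ := hK
  refine ⟨?_, h2.image (by fun_prop), ?_, ?_⟩
  · have h4 := h1.translate (-z)
    rwa [show (fun x => -z + x) '' K = (fun x => x - z) '' K from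
      Set.image_congr fun x _ => by rw [sub_eq_neg_add]] at h4
  · obtain ⟨x, hx⟩ := h3
    refine ⟨x - z, ?_⟩
    have hhom : (fun x => x - z) '' K = (Homeomorph.subRight z) '' K := rfl
    rw [hhom, ← Homeomorph.image_interior]
    exact ⟨x, hx, rfl⟩
  · rintro _ ⟨x, hx, rfl⟩
    refine ⟨(2 : ℝ) • z - x, hz x hx, ?_⟩
    simp only
    module

/-- The exceptional set stays away from each regular body. -/
theorem exists_not_close {K : Set Pl} (hK : SymDomain K) (hR : Regular K) :
    ∃ ε > (0 : ℝ), ∀ E ∈ EE, ¬ Close ε (E : Set Pl) K := by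
  obtain ⟨hKd, z, hz⟩ := hK
  obtain ⟨h1, h2, h3, h4⟩ := SymDomain.sub hKd hz
  obtain ⟨ε, hε, hst⟩ := threshold_stable h1 h4
    (threshold_of_regular h1 h2 h3 h4 (hR.sub z))
  refine ⟨ε, hε, fun E hE hcl => not_threshold hE (hst _ (nrm_ball hE.1
    (mem_ball_self one_pos)) ?_)⟩
  obtain ⟨A, v, hA1, hA2⟩ := hcl
  have e : (fun x => A x + (v + A z)) '' ((fun x => x - z) '' K) = (fun x => A x + v) '' K := by
    rw [Set.image_image]
    refine Set.image_congr fun x _ => ?_
    rw [map_sub]; abel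
  refine ⟨A, v + A z, ?_, ?_⟩
  · rw [e]; exact hA1
  · rw [e]; exact hA2

theorem symDomain_EE {E : NonemptyCompacts Pl} (hE : E ∈ EE) : SymDomain (E : Set Pl) := by
  refine ⟨⟨hE.1.1, E.isCompact, ?_⟩, 0, fun x hx => ?_⟩
  · exact ⟨0, interior_mono (nrm_ball hE.1) (by
      rw [isOpen_ball.interior_eq]; exact mem_ball_self one_pos)⟩
  · rw [smul_zero, zero_sub]; exact hE.1.2.1 x hx

end C2305b
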