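import Pool.Agent.W_c2305b_h73.Stmt
import Pool.Agent.W_c2305b_h89.Generic2

/-!
# MP_c2305b_co: definitions used in the statement of the general theorem
-/

open MeasureTheory Set

namespace C2305b

/-- Supremum of the areas of the convex hulls of `m` points of `K`. -/
noncomputable def tmax (m : ℕ) (K : Set Pl) : ENNReal :=
  ⨆ (p : Fin m → Pl) (_ : ∀ k, p k ∈ K), volume (convexHull ℝ (range p))

/-- The sixth term of the sequence `tmax m K` is larger than the mean of the fifth and the
seventh. -/
def StrictGap (K : Set Pl) : Prop := tmax 5 K + tmax 7 K < 2 * tmax 6 K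

/-- Each hexagon of maximal area (convex hull of six points of `K`) has a centre of symmetry. -/
def SymHexagons (K : Set Pl) : Prop :=
  ∀ p : Fin 6 → Pl, (∀ k, p k ∈ K) → volume (convexHull ℝ (range p)) = tmax 6 K →
    ∃ z : Pl, ∀ x ∈ convexHull ℝ (range p), (2 : ℝ) • z - x ∈ convexHull ℝ (range p)

/-- There is only one supporting line at each boundary point: `C^1` bodies. -/
def SmoothBody (K : Set Pl) : Prop :=
  ∀ x ∈ K, ∀ f g : Pl →L[ℝ] ℝ, f ≠ 0 → g ≠ 0 → (∀ y ∈ K, f y ≤ f x) → (∀ y ∈ K, g y ≤ g x) →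
    ∃ c : ℝ, 0 < c ∧ g = c • f

/-- There is only one six-point set in `K` with a convex hull of maximal area. -/
def UniqueHexagon (K : Set Pl) : Prop :=
  ∃ H : Fin 6 → Pl, (∀ k, H k ∈ K) ∧ ∀ G : Fin 6 → Pl, (∀ k, G k ∈ K) →
    volume (convexHull ℝ (range H)) ≤ volume (convexHull ℝ (range G)) → range G = range H

/-- The class of the theorem. -/
def Regular (K : Set Pl) : Prop :=
  (StrictGap K ∧ SymHexagons K) ∨ SmoothBody K ∨ UniqueHexagon K

end C2305b
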